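import Pool.Agent.TH221.Defs

set_option autoImplicit false

open MeasureTheory Set Filter Topology Metric
open scoped ENNReal NNReal

namespace Pool.Agent.TH221

/-- a `1`-Lipschitz function on an interval cannot compress length -/
theorem lintegral_comp_lip_ge {v : ℝ → ℝ} {L : ℝ} (hL : 0 ≤ L)
    (hv : LipschitzOnWith 1 v (Icc 0 L)) {f : ℝ → ℝ≥0∞} (hf : Measurable f) :
    ∫⁻ x in Icc (v 0) (v L), f x ≤ ∫⁻ s in Icc 0 L, f (v s) := by
  set g : ℝ → ℝ := fun s => v (projIcc 0 L hL s) with hg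
  have hgc : Continuous g := by
    have h1 : Continuous (fun s : Icc (0:ℝ) L => v s) :=
      continuousOn_iff_continuous_domRestrict.1 hv.continuousOn
    exact h1.comp continuous_projIcc
  have hgv : ∀ s ∈ Icc 0 L, g s = v s := by
    intro s hs
    simp only [hg]
    rw [projIcc_of_mem hL hs]
  have hle : volume.restrict (Icc (v 0) (v L)) ≤ Measure.map g (volume.restrict (Icc 0 L)) := by
    refine Measure.le_iff.2 fun A hA => ?_
    rw [Measure.restrict_apply hA, Measure.map_apply hgc.measurable hA,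
      Measure.restrict_apply (hgc.measurable hA)]
    have hsub : A ∩ Icc (v 0) (v L) ⊆ v '' (g ⁻¹' A ∩ Icc 0 L) := by
      rintro y ⟨hyA, hy⟩
      obtain ⟨s, hs, rfl⟩ := intermediate_value_Icc hL hv.continuousOn hy
      refine ⟨s, ⟨?_, hs⟩, rfl⟩
      show g s ∈ A
      rw [hgv s hs]
      exact hyA
    refine (measure_mono hsub).trans ?_
    have h2 := (hv.mono (inter_subset_right : g ⁻¹' A ∩ Icc 0 L ⊆ Icc 0 L)).hausdorffMeasure_image_le
      (d := 1) zero_le_one
    rw [hausdorffMeasure_real] at h2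
    simpa using h2
  calc ∫⁻ x in Icc (v 0) (v L), f x ≤ ∫⁻ x, f x ∂(Measure.map g (volume.restrict (Icc 0 L))) :=
        lintegral_mono' hle le_rfl
    _ = ∫⁻ s in Icc 0 L, f (g s) := lintegral_map hf hgc.measurable
    _ = ∫⁻ s in Icc 0 L, f (v s) := by
        refine setLIntegral_congr_fun measurableSet_Icc fun s hs => ?_
        simp only [hgv s hs]

namespace J141

variable {n : ℕ} {c : ℝ → Eu n}

lemma V_cont (hc : ContinuousOn c (Icc 0 1)) (hv : eVariationOn c (Icc 0 1) ≠ ⊤) :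
    ContinuousOn (variationOnFromTo c (Icc 0 1) 0) (Icc 0 1) := by
  intro b hb
  have hbv : LocallyBoundedVariationOn c (Icc 0 1) :=
    BoundedVariationOn.locallyBoundedVariationOn hv
  have h0 : (0:ℝ) ∈ Icc (0:ℝ) 1 := by simp
  have hl := variationOnFromTo.tendsto_left (f := c) (l := c b) (s := Icc 0 1) h0 hb hbv
    ((hc b hb).mono_left (nhdsWithin_mono _ inter_subset_left))
  have hr := variationOnFromTo.tendsto_right (f := c) (l := c b) (s := Icc 0 1) h0 hb hbv
    ((hc b hb).mono_left (nhdsWithin_mono _ inter_subset_left))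
  rw [dist_self, sub_zero] at hl
  rw [dist_self, add_zero] at hr
  have hl' : ContinuousWithinAt (variationOnFromTo c (Icc 0 1) 0) (Icc 0 1 ∩ Iio b) b := hl
  have hr' : ContinuousWithinAt (variationOnFromTo c (Icc 0 1) 0) (Icc 0 1 ∩ Ioi b) b := hr
  have hm : ContinuousWithinAt (variationOnFromTo c (Icc 0 1) 0) {b} b :=
    continuousWithinAt_singleton
  refine ((hl'.union hm).union hr').mono fun x hx => ?_
  rcases lt_trichotomy x b with h | h | h
  · exact Or.inl (Or.inl ⟨hx, h⟩)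
  · exact Or.inl (Or.inr h)
  · exact Or.inr ⟨hx, h⟩

lemma V_zero : variationOnFromTo c (Icc 0 1) 0 0 = 0 := variationOnFromTo.self _ _ _

lemma V_one : variationOnFromTo c (Icc 0 1) 0 1 = (eVariationOn c (Icc 0 1)).toReal := by
  rw [variationOnFromTo.eq_of_le _ _ zero_le_one, inter_self]

lemma V_mono (hv : eVariationOn c (Icc 0 1) ≠ ⊤) :
    MonotoneOn (variationOnFromTo c (Icc 0 1) 0) (Icc 0 1) :=
  variationOnFromTo.monotoneOn (BoundedVariationOn.locallyBoundedVariationOn hv) (by simp)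

lemma V_image (hc : ContinuousOn c (Icc 0 1)) (hv : eVariationOn c (Icc 0 1) ≠ ⊤) :
    variationOnFromTo c (Icc 0 1) 0 '' Icc 0 1 = Icc 0 (eVariationOn c (Icc 0 1)).toReal := by
  apply Subset.antisymm
  · rintro _ ⟨t, ht, rfl⟩
    have h1 := V_mono hv (by simp : (0:ℝ) ∈ Icc (0:ℝ) 1) ht ht.1
    have h2 := V_mono hv ht (by simp : (1:ℝ) ∈ Icc (0:ℝ) 1) ht.2
    rw [V_zero] at h1
    rw [V_one] at h2
    exact ⟨h1, h2⟩
  · have := intermediate_value_Icc (zero_le_one (α := ℝ)) (V_cont hc hv)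
    rwa [V_one, V_zero] at this

lemma N_V (hv : eVariationOn c (Icc 0 1) ≠ ⊤) {t : ℝ} (ht : t ∈ Icc (0:ℝ) 1) :
    naturalParameterization c (Icc 0 1) 0 (variationOnFromTo c (Icc 0 1) 0 t) = c t := by
  have := edist_naturalParameterization_eq_zero (f := c) (s := Icc 0 1)
    (BoundedVariationOn.locallyBoundedVariationOn hv) (a := 0) (by simp) ht
  rwa [edist_eq_zero] at this

lemma N_lip (hc : ContinuousOn c (Icc 0 1)) (hv : eVariationOn c (Icc 0 1) ≠ ⊤) :
    LipschitzOnWith 1 (naturalParameterization c (Icc 0 1) 0)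
      (Icc 0 (eVariationOn c (Icc 0 1)).toReal) := by
  have hu := has_unit_speed_naturalParameterization c (s := Icc (0:ℝ) 1)
    (BoundedVariationOn.locallyBoundedVariationOn hv) (a := 0) (by simp)
  rw [V_image hc hv] at hu
  have key : ∀ x ∈ Icc 0 (eVariationOn c (Icc 0 1)).toReal,
      ∀ y ∈ Icc 0 (eVariationOn c (Icc 0 1)).toReal, x ≤ y →
      edist (naturalParameterization c (Icc 0 1) 0 x) (naturalParameterization c (Icc 0 1) 0 y)
        ≤ edist x y := by
    intro x hx y hy hxy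
    have h1 := hu hx hy
    have h2 := eVariationOn.edist_le (naturalParameterization c (Icc 0 1) 0)
      (s := Icc 0 (eVariationOn c (Icc 0 1)).toReal ∩ Icc x y)
      ⟨hx, le_rfl, hxy⟩ ⟨hy, hxy, le_rfl⟩
    rw [h1] at h2
    refine h2.trans ?_
    rw [edist_comm, edist_dist, Real.dist_eq, abs_of_nonneg (sub_nonneg.2 hxy)]
    simp
  intro x hx y hy
  rw [ENNReal.coe_one, one_mul]
  rcases le_total x y with h | h
  · exact key x hx y hy h
  · rw [edist_comm, edist_comm x y]
    exact key y hy x hx h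

end J141

open J141

theorem bridge_of_crv {n : ℕ} {K E : Set (Eu n)} {x y : Eu n} {γ : ℝ → Eu n} {ℓ : ℝ}
    (h : Crv K E x y γ ℓ) :
    ∃ c : ℝ → Eu n, ContinuousOn c (Icc 0 1) ∧ c 0 = x ∧ c 1 = y ∧
      eVariationOn c (Icc 0 1) ≠ ⊤ ∧ c '' Icc 0 1 = γ '' Icc 0 ℓ ∧
      ∀ ρ : Eu n → ℝ≥0∞, Measurable ρ → lineInt ρ c ≤ cost ρ γ 0 ℓ := by
  set c : ℝ → Eu n := fun t => γ (ℓ * t) with hcdef
  have hℓ := h.nonneg
  have hlip : LipschitzWith (Real.toNNReal ℓ) c := by
    refine LipschitzWith.of_dist_le_mul fun s t => ?_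
    have h1 := h.lip.dist_le_mul (ℓ * s) (ℓ * t)
    rw [NNReal.coe_one, one_mul, Real.dist_eq, ← mul_sub, abs_mul, abs_of_nonneg hℓ] at h1
    rw [Real.coe_toNNReal _ hℓ, Real.dist_eq]
    exact h1
  have hcc : ContinuousOn c (Icc 0 1) := hlip.continuous.continuousOn
  have hvar : ∀ a b : ℝ, a ≤ b → eVariationOn c (Icc a b) ≤ ENNReal.ofReal (ℓ * (b - a)) := by
    intro a b hab
    have h1 := (hlip.lipschitzOnWith (s := univ)).comp_eVariationOn_le
      (g := (id : ℝ → ℝ)) (s := Icc a b) (mapsTo_univ _ _)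
    rw [eVariationOn_id_Icc] at h1
    have h2 : c ∘ id = c := rfl
    rw [h2] at h1
    refine h1.trans ?_
    rw [ENNReal.ofReal_mul hℓ]
    rfl
  have hv : eVariationOn c (Icc 0 1) ≠ ⊤ :=
    ne_top_of_le_ne_top ENNReal.ofReal_ne_top (hvar 0 1 zero_le_one)
  refine ⟨c, hcc, ?_, ?_, hv, ?_, ?_⟩
  · simp only [hcdef, mul_zero]
    exact h.left
  · simp only [hcdef, mul_one]
    exact h.right
  · ext z
    constructor
    · rintro ⟨t, ht, rfl⟩
      exact ⟨ℓ * t, ⟨mul_nonneg hℓ ht.1, by nlinarith [ht.2]⟩, rfl⟩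
    · rintro ⟨s, hs, rfl⟩
      rcases hℓ.eq_or_lt with h0 | h0
      · have : s = 0 := le_antisymm (by simpa [← h0] using hs.2) hs.1
        exact ⟨0, by simp, by simp [hcdef, this]⟩
      · refine ⟨s / ℓ, ⟨div_nonneg hs.1 hℓ, (div_le_one h0).2 hs.2⟩, ?_⟩
        simp only [hcdef]
        rw [mul_div_cancel₀ _ h0.ne']
  · intro ρ hρ
    have hbv : LocallyBoundedVariationOn c (Icc 0 1) :=
      BoundedVariationOn.locallyBoundedVariationOn hv
    unfold lineInt cost
    set T := (eVariationOn c (Icc 0 1)).toReal with hT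
    have hT0 : 0 ≤ T := ENNReal.toReal_nonneg
    rcases hℓ.eq_or_lt with h0 | h0
    · have : T = 0 := by
        have h1 := hvar 0 1 zero_le_one
        rw [← h0] at h1
        simp only [zero_mul, ENNReal.ofReal_zero, nonpos_iff_eq_zero] at h1
        rw [hT, h1]
        rfl
      rw [this]
      simp
    set v : ℝ → ℝ := fun s => variationOnFromTo c (Icc 0 1) 0 (s / ℓ) with hvdef
    have hmem : ∀ s ∈ Icc 0 ℓ, s / ℓ ∈ Icc (0:ℝ) 1 := fun s hs =>
      ⟨div_nonneg hs.1 hℓ, (div_le_one h0).2 hs.2⟩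
    have hvl : LipschitzOnWith 1 v (Icc 0 ℓ) := by
      have key : ∀ s ∈ Icc 0 ℓ, ∀ t ∈ Icc 0 ℓ, s ≤ t → dist (v s) (v t) ≤ dist s t := by
        intro s hs t ht hst
        have hst' : s / ℓ ≤ t / ℓ := div_le_div_of_nonneg_right hst hℓ
        have h1 : v t - v s = variationOnFromTo c (Icc 0 1) (s / ℓ) (t / ℓ) :=
          variationOnFromTo.sub_right hbv (by simp) (hmem t ht) (hmem s hs)
        have h2 : 0 ≤ v t - v s := by
          rw [h1]; exact variationOnFromTo.nonneg_of_le _ _ hst'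
        rw [dist_comm, Real.dist_eq, abs_of_nonneg h2, h1, dist_comm, Real.dist_eq,
          abs_of_nonneg (sub_nonneg.2 hst), variationOnFromTo.eq_of_le _ _ hst']
        have h3 : eVariationOn c (Icc 0 1 ∩ Icc (s / ℓ) (t / ℓ)) ≤ ENNReal.ofReal (t - s) := by
          refine (eVariationOn.mono c inter_subset_right).trans ((hvar _ _ hst').trans ?_)
          rw [← sub_div, mul_div_cancel₀ _ h0.ne']
        exact ENNReal.toReal_le_of_le_ofReal (sub_nonneg.2 hst) h3
      refine LipschitzOnWith.of_dist_le_mul fun s hs t ht => ?_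
      rw [NNReal.coe_one, one_mul]
      rcases le_total s t with hst | hst
      · exact key s hs t ht hst
      · rw [dist_comm, dist_comm s t]
        exact key t ht s hs hst
    have hN : Continuous (fun s => naturalParameterization c (Icc 0 1) 0 (projIcc 0 T hT0 s)) := by
      have h1 : Continuous (fun s : Icc (0:ℝ) T => naturalParameterization c (Icc 0 1) 0 s) :=
        continuousOn_iff_continuous_domRestrict.1 (N_lip hcc hv).continuousOn
      exact h1.comp continuous_projIcc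
    have hf : Measurable (fun s => ρ (naturalParameterization c (Icc 0 1) 0 (projIcc 0 T hT0 s))) :=
      hρ.comp hN.measurable
    have key := lintegral_comp_lip_ge hℓ hvl hf
    have hv0 : v 0 = 0 := by
      simp only [hvdef, zero_div]
      exact V_zero
    have hv1 : v ℓ = T := by
      simp only [hvdef]
      rw [div_self h0.ne', V_one]
    rw [hv0, hv1] at key
    calc ∫⁻ s in Icc 0 T, ρ (naturalParameterization c (Icc 0 1) 0 s)
        = ∫⁻ s in Icc 0 T, ρ (naturalParameterization c (Icc 0 1) 0 (projIcc 0 T hT0 s)) := by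
          refine setLIntegral_congr_fun measurableSet_Icc fun s hs => ?_
          simp only [projIcc_of_mem hT0 hs]
      _ ≤ ∫⁻ s in Icc 0 ℓ, ρ (naturalParameterization c (Icc 0 1) 0 (projIcc 0 T hT0 (v s))) := key
      _ = ∫⁻ s in Icc 0 ℓ, ρ (γ s) := by
          refine setLIntegral_congr_fun measurableSet_Icc fun s hs => ?_
          have hvs : v s ∈ Icc 0 T := by
            rw [hT, ← V_image hcc hv]
            exact ⟨s / ℓ, hmem s hs, rfl⟩
          have h4 : naturalParameterization c (Icc 0 1) 0 (v s) = γ s := by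
            simp only [hvdef]
            rw [N_V hv (hmem s hs)]
            simp only [hcdef]
            rw [mul_div_cancel₀ _ h0.ne']
          simp only [projIcc_of_mem hT0 hvs, h4]

theorem bridge_to_crv {n : ℕ} {c : ℝ → Eu n} (hc : ContinuousOn c (Icc 0 1))
    (hv : eVariationOn c (Icc 0 1) ≠ ⊤) :
    ∃ (γ : ℝ → Eu n) (ℓ : ℝ), LipschitzWith 1 γ ∧ 0 ≤ ℓ ∧ γ 0 = c 0 ∧ γ ℓ = c 1 ∧
      γ '' Icc 0 ℓ = c '' Icc 0 1 ∧
      ∀ ρ : Eu n → ℝ≥0∞, lineInt ρ c = cost ρ γ 0 ℓ := by
  set T := (eVariationOn c (Icc 0 1)).toReal with hT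
  have hT0 : 0 ≤ T := ENNReal.toReal_nonneg
  set γ : ℝ → Eu n := fun s => naturalParameterization c (Icc 0 1) 0 (projIcc 0 T hT0 s) with hγ
  have hγN : ∀ s ∈ Icc 0 T, γ s = naturalParameterization c (Icc 0 1) 0 s := by
    intro s hs
    simp only [hγ, projIcc_of_mem hT0 hs]
  have hV0 := V_zero (c := c)
  have hV1 := V_one (c := c)
  refine ⟨γ, T, ?_, hT0, ?_, ?_, ?_, ?_⟩
  · intro s t
    have h1 := N_lip hc hv (projIcc 0 T hT0 s).2 (projIcc 0 T hT0 t).2
    have h2 := LipschitzWith.projIcc hT0 s t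
    rw [ENNReal.coe_one, one_mul] at h1 h2 ⊢
    exact h1.trans h2
  · rw [hγN 0 ⟨le_rfl, hT0⟩]
    have := N_V hv (c := c) (t := 0) (by simp)
    rwa [hV0] at this
  · rw [hγN T ⟨hT0, le_rfl⟩]
    have := N_V hv (c := c) (t := 1) (by simp)
    rwa [hV1] at this
  · rw [image_congr hγN, hT, ← V_image hc hv, image_image]
    exact image_congr fun t ht => N_V hv ht
  · intro ρ
    unfold lineInt cost
    refine setLIntegral_congr_fun measurableSet_Icc fun s hs => ?_
    simp only [hγN s hs]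

end Pool.Agent.TH221
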