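import Pool.Agent.TH221.Defs

set_option autoImplicit false

open MeasureTheory Set Filter Topology Metric
open scoped ENNReal NNReal ContDiff Convolution

namespace Pool.Agent.TH221

namespace J143

lemma jensen {α : Type*} [MeasurableSpace α] (μ : Measure α) [IsProbabilityMeasure μ] {n : ℕ}
    (hn : 2 ≤ n) {a : α → ℝ≥0∞} (ha : AEMeasurable a μ) :
    (∫⁻ x, a x ∂μ) ^ n ≤ ∫⁻ x, a x ^ n ∂μ := by
  have h1 : (1:ℝ) < n := by exact_mod_cast hn
  have hpq : (n:ℝ).HolderConjugate (Real.conjExponent n) := Real.HolderConjugate.conjExponent h1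
  have h := ENNReal.lintegral_mul_le_Lp_mul_Lq μ hpq ha (aemeasurable_const (b := (1:ℝ≥0∞)))
  have h2 : (∫⁻ x, a x ∂μ) ≤ (∫⁻ x, a x ^ (n:ℝ) ∂μ) ^ (1 / (n:ℝ)) := by
    simpa using h
  calc (∫⁻ x, a x ∂μ) ^ n ≤ ((∫⁻ x, a x ^ (n:ℝ) ∂μ) ^ (1 / (n:ℝ))) ^ n := by gcongr
    _ = ∫⁻ x, a x ^ (n:ℝ) ∂μ := by
        rw [← ENNReal.rpow_natCast, ← ENNReal.rpow_mul, one_div,
          inv_mul_cancel₀ (by positivity), ENNReal.rpow_one]
    _ = ∫⁻ x, a x ^ n ∂μ := by simp only [ENNReal.rpow_natCast]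

lemma eLp {α F : Type*} [MeasurableSpace α] [NormedAddCommGroup F] {n : ℕ} (hn : n ≠ 0)
    (f : α → F) (μ : Measure α) : eLpNorm f n μ ^ n = ∫⁻ x, ‖f x‖ₑ ^ n ∂μ := by
  rw [eLpNorm_eq_lintegral_rpow_enorm_toReal (by exact_mod_cast hn) (by simp)]
  rw [← ENNReal.rpow_natCast, ← ENNReal.rpow_mul, ENNReal.toReal_natCast, one_div,
    inv_mul_cancel₀ (by positivity), ENNReal.rpow_one]
  simp only [ENNReal.rpow_natCast]

variable {n : ℕ} {F : Type*} [NormedAddCommGroup F] [NormedSpace ℝ F]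

/-- mollification -/
noncomputable abbrev mo (ψ : ContDiffBump (0 : Eu n)) (h : Eu n → F) : Eu n → F :=
  ψ.normed volume ⋆[ContinuousLinearMap.lsmul ℝ ℝ, volume] h

lemma prob (ψ : ContDiffBump (0 : Eu n)) :
    IsProbabilityMeasure ((volume : Measure (Eu n)).withDensity
      (fun t => ‖ψ.normed volume t‖ₑ)) := by
  constructor
  rw [withDensity_apply _ MeasurableSet.univ, Measure.restrict_univ]
  have h1 : ∀ t, ‖ψ.normed (volume : Measure (Eu n)) t‖ₑ = ENNReal.ofReal (ψ.normed volume t) := by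
    intro t
    rw [← ofReal_norm, Real.norm_of_nonneg (ψ.nonneg_normed t)]
  simp only [h1]
  rw [← ofReal_integral_eq_lintegral_ofReal ψ.integrable_normed
    (Eventually.of_forall fun t => ψ.nonneg_normed t), ψ.integral_normed, ENNReal.ofReal_one]

lemma contr (hn : 2 ≤ n) (ψ : ContDiffBump (0 : Eu n)) {h : Eu n → F}
    (hm : Measurable (fun x => ‖h x‖ₑ)) :
    eLpNorm (mo ψ h) n volume ≤ eLpNorm h n volume := by
  have hn0 : n ≠ 0 := by omega
  rw [← ENNReal.pow_le_pow_left_iff hn0, eLp hn0, eLp hn0]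
  set η : Eu n → ℝ := ψ.normed volume with hη
  have hηm : Measurable (fun t => ‖η t‖ₑ) := ψ.continuous_normed.measurable.enorm
  set μ : Measure (Eu n) := (volume : Measure (Eu n)).withDensity (fun t => ‖η t‖ₑ) with hμ
  have hprob : IsProbabilityMeasure μ := prob ψ
  have h1 : ∀ x, ‖mo ψ h x‖ₑ ≤ ∫⁻ t, ‖h (x - t)‖ₑ ∂μ := by
    intro x
    have hm' : Measurable (fun t => ‖h (x - t)‖ₑ) :=
      hm.comp (measurable_const.sub measurable_id)
    rw [hμ, lintegral_withDensity_eq_lintegral_mul _ hηm hm']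
    refine (enorm_integral_le_lintegral_enorm _).trans (le_of_eq ?_)
    refine lintegral_congr fun t => ?_
    simp [enorm_smul]
    rfl
  calc ∫⁻ x, ‖mo ψ h x‖ₑ ^ n ≤ ∫⁻ x, ∫⁻ t, ‖h (x - t)‖ₑ ^ n ∂μ := by
        refine lintegral_mono fun x => ?_
        refine (pow_le_pow_left' (h1 x) n).trans ?_
        have hm' : Measurable (fun t => ‖h (x - t)‖ₑ) :=
          hm.comp (measurable_const.sub measurable_id)
        exact jensen μ hn hm'.aemeasurable
    _ = ∫⁻ t, (∫⁻ x, ‖h (x - t)‖ₑ ^ n) ∂μ := by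
        refine lintegral_lintegral_swap ?_
        exact ((hm.pow_const n).comp (measurable_fst.sub measurable_snd)).aemeasurable
    _ = ∫⁻ t, (∫⁻ x, ‖h x‖ₑ ^ n) ∂μ := by
        refine lintegral_congr fun t => ?_
        exact lintegral_sub_right_eq_self (fun x => ‖h x‖ₑ ^ n) t
    _ = ∫⁻ x, ‖h x‖ₑ ^ n := by
        rw [lintegral_const, measure_univ, mul_one]

lemma mo_add (ψ : ContDiffBump (0 : Eu n)) {h g : Eu n → F} (hh : LocallyIntegrable h)
    (hg : LocallyIntegrable g) : mo ψ (h + g) = mo ψ h + mo ψ g := by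
  funext x
  exact ConvolutionExistsAt.distrib_add
    (ψ.hasCompactSupport_normed.convolutionExists_left _ ψ.continuous_normed hh x)
    (ψ.hasCompactSupport_normed.convolutionExists_left _ ψ.continuous_normed hg x)

/-- `Lⁿ` convergence of mollifications -/
lemma small [MeasurableSpace F] [BorelSpace F] [SecondCountableTopology F] [CompleteSpace F]
    (hn : 2 ≤ n) {h : Eu n → F} (hm : Measurable h) (hL : MemLp h n volume) {K : Set (Eu n)}
    (hK : IsCompact K) {ε : ℝ≥0∞} (hε : ε ≠ 0) :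
    ∃ δ : ℝ, 0 < δ ∧ ∀ ψ : ContDiffBump (0 : Eu n), ψ.rOut < δ →
      eLpNorm (fun x => mo ψ h x - h x) n (volume.restrict K) ≤ ε := by
  have hp1 : (1 : ENNReal) ≤ (n : ENNReal) := by exact_mod_cast (by omega : 1 ≤ n)
  obtain ⟨g, hgc, hgε, hg, hgn⟩ := hL.exists_hasCompactSupport_eLpNorm_sub_le (by simp)
    (ε := ε / 3) (by simpa using hε)
  have hV : (volume K) ^ (n : ℝ≥0∞).toReal⁻¹ ≠ ⊤ :=
    ENNReal.rpow_ne_top_of_nonneg (by positivity) hK.measure_lt_top.ne
  obtain ⟨ε', hε', hε'2⟩ := ENNReal.exists_nnreal_pos_mul_lt hV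
    (by simpa using hε : ε / 3 ≠ 0)
  have hgu : UniformContinuous g := hgc.uniformContinuous_of_continuous hg
  obtain ⟨δ, hδ, hδ2⟩ := Metric.uniformContinuous_iff.1 hgu ε' (by exact_mod_cast hε')
  refine ⟨δ, hδ, fun ψ hψ => ?_⟩
  have hLh : LocallyIntegrable h := hL.locallyIntegrable hp1
  have hLg : LocallyIntegrable g := hgn.locallyIntegrable hp1
  have e1 : (fun x => mo ψ h x - h x) =
      (mo ψ (h - g) + (fun x => mo ψ g x - g x)) + (g - h) := by
    have h2 : mo ψ h = mo ψ (h - g) + mo ψ g := by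
      rw [← mo_add ψ (hLh.sub hLg) hLg]
      congr 1
      simp
    funext x
    rw [h2]
    simp only [Pi.add_apply, Pi.sub_apply]
    abel
  have hc1 : Continuous (mo ψ (h - g)) :=
    ψ.hasCompactSupport_normed.continuous_convolution_left _ ψ.continuous_normed (hLh.sub hLg)
  have hc2 : Continuous (mo ψ g) :=
    ψ.hasCompactSupport_normed.continuous_convolution_left _ ψ.continuous_normed hLg
  rw [e1]
  calc _ ≤ eLpNorm (mo ψ (h - g) + (fun x => mo ψ g x - g x)) (n : ENNReal) (volume.restrict K) +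
        eLpNorm (g - h) (n : ENNReal) (volume.restrict K) :=
          eLpNorm_add_le (hc1.aestronglyMeasurable.add (hc2.sub hg).aestronglyMeasurable)
            (hg.measurable.sub hm).aestronglyMeasurable hp1
    _ ≤ (eLpNorm (mo ψ (h - g)) (n : ENNReal) (volume.restrict K) +
        eLpNorm (fun x => mo ψ g x - g x) (n : ENNReal) (volume.restrict K)) +
        eLpNorm (g - h) (n : ENNReal) (volume.restrict K) := by
          gcongr
          exact eLpNorm_add_le hc1.aestronglyMeasurable (hc2.sub hg).aestronglyMeasurable hp1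
    _ ≤ (ε / 3 + ε / 3) + ε / 3 := by
          refine add_le_add (add_le_add ?_ ?_) ?_
          · refine (eLpNorm_mono_measure _ Measure.restrict_le_self).trans ?_
            exact (contr hn ψ (hm.sub hg.measurable).enorm).trans hgε
          · have hb : ∀ x, ‖mo ψ g x - g x‖ ≤ (ε' : ℝ) := by
              intro x
              rw [← dist_eq_norm]
              refine ψ.dist_normed_convolution_le hg.aestronglyMeasurable fun y hy => ?_
              exact (hδ2 ((mem_ball.1 hy).trans hψ)).le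
            refine (eLpNorm_le_of_ae_bound (Eventually.of_forall hb)).trans ?_
            rw [Measure.restrict_apply_univ, ENNReal.ofReal_coe_nnreal, mul_comm]
            exact hε'2.le
          · refine (eLpNorm_mono_measure _ Measure.restrict_le_self).trans ?_
            rw [eLpNorm_sub_comm]
            exact hgε
    _ = ε := by rw [ENNReal.add_thirds]

lemma fderiv_mo {Ω : Set (Eu n)} {w : Eu n → ℝ} {G : Eu n → Eu n →L[ℝ] ℝ}
    (hW : WeakGrad Ω w G) {L : Set (Eu n)} (hLΩ : L ⊆ Ω)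
    (hwi : Integrable (L.indicator w)) (hGi : LocallyIntegrable (L.indicator G))
    (ψ : ContDiffBump (0 : Eu n)) {x : Eu n} (hx : closedBall x ψ.rOut ⊆ L) :
    fderiv ℝ (mo ψ (L.indicator w)) x = mo ψ (L.indicator G) x := by
  set η : Eu n → ℝ := ψ.normed volume with hη
  have hηs : ContDiff ℝ ∞ η := ψ.contDiff_normed
  have hηd : Continuous (fderiv ℝ η) := hηs.continuous_fderiv (by simp)
  have hcs : HasCompactSupport η := ψ.hasCompactSupport_normed
  have hwl : LocallyIntegrable (L.indicator w) := hwi.locallyIntegrable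
  have hd := (hcs.hasFDerivAt_convolution_left (ContinuousLinearMap.lsmul ℝ ℝ)
    (hηs.of_le (by simp)) hwl x).fderiv
  rw [hd]
  ext v
  have hi1 : Integrable (fun t => (ContinuousLinearMap.lsmul ℝ ℝ).precompL (Eu n) (fderiv ℝ η t)
      (L.indicator w (x - t))) :=
    (hcs.fderiv (𝕜 := ℝ)).convolutionExists_left
      ((ContinuousLinearMap.lsmul ℝ ℝ : ℝ →L[ℝ] ℝ →L[ℝ] ℝ).precompL (Eu n)) hηd hwl x
  have hi2 : Integrable (fun t => (ContinuousLinearMap.lsmul ℝ ℝ) (η t)
      (L.indicator G (x - t))) :=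
    hcs.convolutionExists_left
      (ContinuousLinearMap.lsmul ℝ ℝ : ℝ →L[ℝ] (Eu n →L[ℝ] ℝ) →L[ℝ] (Eu n →L[ℝ] ℝ))
      hηs.continuous hGi x
  have h1 : (fderiv ℝ η ⋆[(ContinuousLinearMap.lsmul ℝ ℝ).precompL (Eu n), volume]
      (L.indicator w)) x v = ∫ y, L.indicator w y * fderiv ℝ η (x - y) v := by
    rw [convolution_def, ContinuousLinearMap.integral_apply hi1]
    rw [← integral_sub_left_eq_self _ volume x]
    refine integral_congr_ae (Eventually.of_forall fun y => ?_)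
    simp [ContinuousLinearMap.precompL_apply, mul_comm]
  have h2 : (mo ψ (L.indicator G) x) v = ∫ y, η (x - y) * L.indicator G y v := by
    unfold mo
    rw [convolution_def, ContinuousLinearMap.integral_apply hi2]
    rw [← integral_sub_left_eq_self _ volume x]
    refine integral_congr_ae (Eventually.of_forall fun y => ?_)
    simp [hη]
  rw [h1, h2]
  set φ : Eu n → ℝ := fun y => η (x - y) with hφ
  have hφs : ContDiff ℝ ∞ φ := hηs.comp (contDiff_const.sub contDiff_id)
  have hsupp : Function.support φ ⊆ closedBall x ψ.rOut := by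
    intro y hy
    have h1 : x - y ∈ Function.support η := hy
    rw [hη, ψ.support_normed_eq, mem_ball_zero_iff] at h1
    rw [mem_closedBall, dist_comm, dist_eq_norm]
    exact h1.le
  have htsupp : tsupport φ ⊆ closedBall x ψ.rOut := closure_minimal hsupp isClosed_closedBall
  have hφc : HasCompactSupport φ :=
    HasCompactSupport.of_support_subset_isCompact (isCompact_closedBall x ψ.rOut) hsupp
  have hfd : ∀ y, fderiv ℝ φ y v = - fderiv ℝ η (x - y) v := by
    intro y
    have h1 : HasFDerivAt η (fderiv ℝ η (x - y)) (x - y) :=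
      ((hηs.differentiable (by simp)) (x - y)).hasFDerivAt
    have h2 : HasFDerivAt (fun z : Eu n => x - z) (-(ContinuousLinearMap.id ℝ (Eu n))) y :=
      (hasFDerivAt_id y).const_sub x
    have h4 : fderiv ℝ φ y = _ := (h1.comp y h2).fderiv
    rw [h4]
    simp
  have h := hW φ hφs hφc (htsupp.trans (hx.trans hLΩ)) v
  have e1 : ∫ y, w y * fderiv ℝ φ y v = ∫ y, L.indicator w y * fderiv ℝ φ y v := by
    refine integral_congr_ae (Eventually.of_forall fun y => ?_)
    by_cases hy : y ∈ L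
    · simp only [indicator_of_mem hy]
    · have h0 : fderiv ℝ φ y = 0 := by
        by_contra h0
        exact hy (hx (htsupp (support_fderiv_subset ℝ h0)))
      simp only [h0, indicator_of_notMem hy]
      simp
  have e2 : ∫ y, φ y * G y v = ∫ y, φ y * L.indicator G y v := by
    refine integral_congr_ae (Eventually.of_forall fun y => ?_)
    by_cases hy : y ∈ L
    · simp only [indicator_of_mem hy]
    · have h0 : φ y = 0 := image_eq_zero_of_notMem_tsupport (fun h' => hy (hx (htsupp h')))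
      simp only [h0, zero_mul]
  rw [e1, e2] at h
  simp only [hfd, mul_neg, integral_neg, neg_inj] at h
  exact h

lemma memLp_ind {F : Type*} [NormedAddCommGroup F] {Ω L : Set (Eu n)} {G : Eu n → F}
    (hLΩ : L ⊆ Ω) (hLm : MeasurableSet L) (hG : MemLp G n (volume.restrict Ω)) :
    MemLp (L.indicator G) n volume := by
  have h1 : (volume : Measure (Eu n)).restrict L ≤ volume.restrict Ω :=
    Measure.restrict_mono_set volume hLΩ
  exact (memLp_indicator_iff_restrict hLm).2 (hG.mono_measure h1)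

/-- local smooth approximation -/
lemma approx (hn : 2 ≤ n) {Ω : Set (Eu n)} (hΩ : IsOpen Ω) {w : Eu n → ℝ}
    (hw : ContinuousOn w Ω) {G : Eu n → Eu n →L[ℝ] ℝ} (hGm : Measurable G)
    (hG : MemLp G n (volume.restrict Ω)) (hW : WeakGrad Ω w G) {K : Set (Eu n)}
    (hK : IsCompact K) (hKΩ : K ⊆ Ω) {ε : ℝ} (hε : 0 < ε) {ε' : ℝ≥0∞} (hε' : ε' ≠ 0) :
    ∃ u : Eu n → ℝ, ContDiff ℝ 1 u ∧ (∀ x ∈ K, |u x - w x| ≤ ε) ∧
      eLpNorm (fun x => fderiv ℝ u x - G x) n (volume.restrict K) ≤ ε' := by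
  have hp1 : (1 : ENNReal) ≤ (n : ENNReal) := by exact_mod_cast (by omega : 1 ≤ n)
  obtain ⟨L, hL, hKL, hLΩ⟩ := exists_compact_between hK hΩ hKΩ
  obtain ⟨δ₁, hδ₁, hδL⟩ := hK.exists_cthickening_subset_open isOpen_interior hKL
  have hLm : MeasurableSet L := hL.measurableSet
  have hwi : Integrable (L.indicator w) :=
    (integrable_indicator_iff hLm).2 ((hw.mono hLΩ).integrableOn_compact hL)
  have hGmm : Measurable (L.indicator G) := hGm.indicator hLm
  have hGL : MemLp (L.indicator G) n volume := memLp_ind hLΩ hLm hG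
  obtain ⟨δ₂, hδ₂, hδ₂'⟩ := Metric.uniformContinuousOn_iff.1
    (hL.uniformContinuousOn_of_continuous (hw.mono hLΩ)) ε hε
  obtain ⟨δ₃, hδ₃, hδ₃'⟩ := small hn hGmm hGL hK hε'
  set r : ℝ := min δ₁ (min δ₂ δ₃) / 2 with hr
  have hm0 : 0 < min δ₁ (min δ₂ δ₃) := lt_min hδ₁ (lt_min hδ₂ hδ₃)
  have hr0 : 0 < r := half_pos hm0
  have hr1 : r < δ₁ := (half_lt_self hm0).trans_le (min_le_left _ _)
  have hr2 : r < δ₂ := (half_lt_self hm0).trans_le ((min_le_right _ _).trans (min_le_left _ _))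
  have hr3 : r < δ₃ := (half_lt_self hm0).trans_le ((min_le_right _ _).trans (min_le_right _ _))
  obtain ⟨ψ, hψ⟩ : ∃ ψ : ContDiffBump (0 : Eu n), ψ.rOut = r :=
    ⟨⟨r / 2, r, half_pos hr0, half_lt_self hr0⟩, rfl⟩
  clear_value r
  have hball : ∀ x ∈ K, closedBall x ψ.rOut ⊆ L := by
    intro x hx
    exact ((closedBall_subset_closedBall (hψ.le.trans hr1.le)).trans
      (closedBall_subset_cthickening hx δ₁)).trans (hδL.trans interior_subset)
  have hKL' : K ⊆ L := hKL.trans interior_subset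
  refine ⟨mo ψ (L.indicator w), ?_, ?_, ?_⟩
  · exact ψ.hasCompactSupport_normed.contDiff_convolution_left _ ψ.contDiff_normed
      hwi.locallyIntegrable
  · intro x hx
    rw [← Real.dist_eq]
    have h1 : L.indicator w x = w x := indicator_of_mem (hKL' hx) _
    rw [← h1]
    refine ψ.dist_normed_convolution_le hwi.aestronglyMeasurable fun y hy => ?_
    have hyL : y ∈ L := hball x hx (ball_subset_closedBall hy)
    rw [indicator_of_mem hyL, h1]
    exact (hδ₂' y hyL x (hKL' hx) ((mem_ball.1 hy).trans (hψ.trans_lt hr2))).le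
  · have h1 : eLpNorm (fun x => fderiv ℝ (mo ψ (L.indicator w)) x - G x) n (volume.restrict K) =
        eLpNorm (fun x => mo ψ (L.indicator G) x - L.indicator G x) n (volume.restrict K) := by
      refine eLpNorm_congr_ae ?_
      filter_upwards [ae_restrict_mem hK.measurableSet] with x hx
      rw [fderiv_mo hW hLΩ hwi (hGL.locallyIntegrable hp1) ψ (hball x hx),
        indicator_of_mem (hKL' hx)]
    rw [h1]
    exact hδ₃' ψ (hψ.trans_lt hr3)

/-- fundamental inequality along a Lipschitz curve -/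
lemma curve {f : Eu n → ℝ} (hf : ContDiff ℝ 1 f) {γ : ℝ → Eu n} (hγ : LipschitzWith 1 γ)
    {p q : ℝ} (hpq : p ≤ q) :
    ENNReal.ofReal |f (γ q) - f (γ p)| ≤ ∫⁻ s in Icc p q, ‖fderiv ℝ f (γ s)‖ₑ := by
  have hd : Continuous (fun s => ‖fderiv ℝ f (γ s)‖) :=
    ((hf.continuous_fderiv one_ne_zero).comp hγ.continuous).norm
  have key : ∀ g : Eu n → ℝ, ContDiff ℝ 1 g → (∀ x, ‖fderiv ℝ g x‖ = ‖fderiv ℝ f x‖) →
      g (γ q) - g (γ p) ≤ ∫ s in p..q, ‖fderiv ℝ f (γ s)‖ := by
    intro g hg hgf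
    have h := image_le_of_liminf_slope_right_le_deriv_boundary (a := p) (b := q)
      (f := fun t => g (γ t) - g (γ p)) (B := fun t => ∫ s in p..t, ‖fderiv ℝ f (γ s)‖)
      (B' := fun t => ‖fderiv ℝ f (γ t)‖)
      ((hg.continuous.comp hγ.continuous).sub continuous_const).continuousOn (by simp)
      (intervalIntegral.continuous_primitive (fun a b => hd.intervalIntegrable a b) p).continuousOn
      (fun x _ => (hd.integral_hasStrictDerivAt p x).hasDerivAt.hasDerivWithinAt) ?_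
      (right_mem_Icc.2 hpq)
    · exact h
    · intro x _ r hr
      apply Eventually.frequently
      have hr0 : 0 ≤ r := (norm_nonneg _).trans hr.le
      have hK0 : 0 ≤ (‖fderiv ℝ f (γ x)‖ + r) / 2 := by positivity
      have hKc := Real.coe_toNNReal _ hK0
      obtain ⟨s, hs, hs'⟩ := (hg.contDiffAt (x := γ x)).exists_lipschitzOnWith_of_nnnorm_lt
        (Real.toNNReal ((‖fderiv ℝ f (γ x)‖ + r) / 2)) (by
          rw [← NNReal.coe_lt_coe, hKc, coe_nnnorm, hgf]
          linarith)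
      have hs2 : ∀ᶠ z in 𝓝[>] x, γ z ∈ s :=
        (hγ.continuous.continuousAt.mono_left nhdsWithin_le_nhds).eventually hs
      filter_upwards [hs2, self_mem_nhdsWithin] with z hz hxz
      have hxz' : 0 < z - x := sub_pos.2 hxz
      rw [slope_def_field, div_lt_iff₀ hxz']
      have h1 := hs'.dist_le_mul _ hz _ (mem_of_mem_nhds hs)
      have h2 := hγ.dist_le_mul z x
      rw [Real.dist_eq] at h1
      rw [NNReal.coe_one, one_mul, Real.dist_eq, abs_of_pos hxz'] at h2
      rw [hKc] at h1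
      have h3 := le_abs_self (g (γ z) - g (γ x))
      have h4 : (‖fderiv ℝ f (γ x)‖ + r) / 2 * dist (γ z) (γ x) ≤
          (‖fderiv ℝ f (γ x)‖ + r) / 2 * (z - x) := by gcongr
      have h5 : (‖fderiv ℝ f (γ x)‖ + r) / 2 * (z - x) < r * (z - x) := by
        apply mul_lt_mul_of_pos_right _ hxz'
        linarith
      linarith
  have h1 := key f hf (fun _ => rfl)
  have h2 := key (fun x => - f x) hf.neg (fun x => by
    have : fderiv ℝ (fun x => - f x) x = - fderiv ℝ f x := fderiv_neg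
    rw [this, norm_neg])
  have h3 : |f (γ q) - f (γ p)| ≤ ∫ s in p..q, ‖fderiv ℝ f (γ s)‖ := by
    rw [abs_le]
    constructor <;> linarith
  refine (ENNReal.ofReal_le_ofReal h3).trans (le_of_eq ?_)
  rw [intervalIntegral.integral_of_le hpq, ← integral_Icc_eq_integral_Ioc,
    ofReal_integral_eq_lintegral_ofReal (hd.continuousOn.integrableOn_compact isCompact_Icc)
      (Eventually.of_forall fun _ => norm_nonneg _)]
  refine lintegral_congr fun s => ?_
  rw [ofReal_norm]

lemma enorm_tri {F : Type*} [NormedAddCommGroup F] (a b : F) : ‖a‖ₑ ≤ ‖b‖ₑ + ‖a - b‖ₑ := by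
  calc ‖a‖ₑ = ‖b + (a - b)‖ₑ := by rw [add_sub_cancel]
    _ ≤ _ := enorm_add_le _ _

lemma exh {Ω : Set (Eu n)} (hΩ : IsOpen Ω) : ∃ K : ℕ → Set (Eu n), (∀ j, IsCompact (K j)) ∧
    (∀ j, K j ⊆ Ω) ∧ ∀ C, IsCompact C → C ⊆ Ω → ∃ j0, ∀ j ≥ j0, C ⊆ K j := by
  have : LocallyCompactSpace Ω := hΩ.locallyCompactSpace
  let c : CompactExhaustion Ω := CompactExhaustion.choice Ω
  refine ⟨fun j => Subtype.val '' c j, fun j => (c.isCompact j).image continuous_subtype_val,
    fun j => by rintro _ ⟨y, _, rfl⟩; exact y.2, fun C hC hCΩ => ?_⟩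
  have h1 : IsCompact (Subtype.val ⁻¹' C : Set Ω) := by
    rw [Subtype.isCompact_iff, Subtype.image_preimage_coe, inter_eq_right.2 hCΩ]
    exact hC
  obtain ⟨j0, hj0⟩ := c.exists_superset_of_isCompact h1
  refine ⟨j0, fun j hj x hx => ⟨⟨x, hCΩ hx⟩, ?_, rfl⟩⟩
  exact c.subset hj (hj0 hx)

lemma geo : ∑' j : ℕ, (2⁻¹ : ℝ≥0∞) ^ (j + 1) = 1 := by
  rw [ENNReal.tsum_geometric_add_one, ENNReal.one_sub_inv_two, inv_inv,
    ENNReal.inv_mul_cancel (by simp) (by simp)]

lemma tsum_pow_le {m : ℕ} (hm : m ≠ 0) (a : ℕ → ℝ≥0∞) :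
    (∑' j, a j) ^ m ≤ ∑' j, (2 ^ (j + 1) * a j) ^ m := by
  set S := ∑' j, (2 ^ (j + 1) * a j) ^ m with hS
  set T := S ^ (m : ℝ)⁻¹ with hT
  have hTm : T ^ m = S := by
    rw [hT, ← ENNReal.rpow_natCast, ← ENNReal.rpow_mul, inv_mul_cancel₀ (by positivity),
      ENNReal.rpow_one]
  have h1 : ∀ j, 2 ^ (j + 1) * a j ≤ T := by
    intro j
    rw [← ENNReal.pow_le_pow_left_iff hm, hTm]
    exact ENNReal.le_tsum (f := fun j => (2 ^ (j + 1) * a j) ^ m) j
  have h2 : ∀ j, a j ≤ T * (2⁻¹ : ℝ≥0∞) ^ (j + 1) := by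
    intro j
    have h3 : a j = (2 ^ (j + 1) * a j) * (2⁻¹ : ℝ≥0∞) ^ (j + 1) := by
      rw [mul_right_comm, ← mul_pow, ENNReal.mul_inv_cancel (by simp) (by simp), one_pow, one_mul]
    rw [h3]
    gcongr
    exact h1 j
  have h3 : ∑' j, a j ≤ T := by
    refine (ENNReal.tsum_le_tsum h2).trans (le_of_eq ?_)
    rw [ENNReal.tsum_mul_left, geo, mul_one]
  calc (∑' j, a j) ^ m ≤ T ^ m := by gcongr
    _ = S := hTm

end J143

open J143 in
/-- Fuglede-type lemma: a continuous function with weak gradient `G ∈ Lⁿ(Ω)` satisfies the upper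
gradient inequality with `|G|` on all curves outside an exceptional family of modulus zero, in the
quantitative form with one function `H`. -/
theorem fuglede {n : ℕ} (hn : 2 ≤ n) {Ω : Set (Eu n)} (hΩ : IsOpen Ω) {w : Eu n → ℝ}
    (hw : ContinuousOn w Ω) {G : Eu n → Eu n →L[ℝ] ℝ} (hGm : Measurable G)
    (hG : MemLp G n (volume.restrict Ω)) (hW : WeakGrad Ω w G) :
    ∃ H : Eu n → ℝ≥0∞, Measurable H ∧ ∫⁻ x, H x ^ n ≠ ⊤ ∧
      ∀ γ : ℝ → Eu n, LipschitzWith 1 γ → ∀ p q : ℝ, p ≤ q → (∀ s ∈ Icc p q, γ s ∈ Ω) →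
        ∫⁻ s in Icc p q, H (γ s) ≠ ⊤ →
        ENNReal.ofReal |w (γ q) - w (γ p)| ≤ ∫⁻ s in Icc p q, ENNReal.ofReal ‖G (γ s)‖ := by
  have hn0 : n ≠ 0 := by omega
  obtain ⟨K, hK, hKΩ, hKC⟩ := exh hΩ
  have hex : ∀ j : ℕ, ∃ u : Eu n → ℝ, ContDiff ℝ 1 u ∧ (∀ x ∈ K j, |u x - w x| ≤ (1 / 2 : ℝ) ^ j) ∧
      eLpNorm (fun x => fderiv ℝ u x - G x) n (volume.restrict (K j)) ≤ (4⁻¹ : ℝ≥0∞) ^ (j + 1) :=
    fun j => approx hn hΩ hw hGm hG hW (hK j) (hKΩ j) (by positivity)
      (pow_ne_zero _ (by simp))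
  choose u hu1 hu2 hu3 using hex
  set b : ℕ → Eu n → ℝ≥0∞ := fun j x => ‖fderiv ℝ (u j) x - G x‖ₑ with hb
  set a : ℕ → Eu n → ℝ≥0∞ := fun j => (K j).indicator (b j) with ha
  have hbm : ∀ j, Measurable (b j) := fun j =>
    (((hu1 j).continuous_fderiv one_ne_zero).measurable.sub hGm).enorm
  have ham : ∀ j, Measurable (a j) := fun j => (hbm j).indicator (hK j).measurableSet
  refine ⟨fun x => ∑' j, a j x, Measurable.tsum ham, ?_, ?_⟩
  · have h1 : ∫⁻ x, (∑' j, a j x) ^ n ≤ 1 := by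
      calc ∫⁻ x, (∑' j, a j x) ^ n ≤ ∫⁻ x, ∑' j, (2 ^ (j + 1) * a j x) ^ n :=
            lintegral_mono fun x => tsum_pow_le hn0 _
        _ = ∑' j, ∫⁻ x, (2 ^ (j + 1) * a j x) ^ n :=
            lintegral_tsum fun j => (((ham j).const_mul _).pow_const n).aemeasurable
        _ ≤ ∑' j : ℕ, (2⁻¹ : ℝ≥0∞) ^ (j + 1) := by
            refine ENNReal.tsum_le_tsum fun j => ?_
            have h2 : ∫⁻ x, (2 ^ (j + 1) * a j x) ^ n =
                (2 ^ (j + 1)) ^ n * ∫⁻ x in K j, b j x ^ n := by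
              simp only [mul_pow]
              rw [lintegral_const_mul _ ((ham j).pow_const n)]
              congr 1
              rw [← lintegral_indicator (hK j).measurableSet]
              refine lintegral_congr fun x => ?_
              by_cases hx : x ∈ K j
              · simp only [ha, indicator_of_mem hx]
              · simp only [ha, indicator_of_notMem hx, zero_pow hn0]
            have h3 : ∫⁻ x in K j, b j x ^ n ≤ ((4⁻¹ : ℝ≥0∞) ^ (j + 1)) ^ n := by
              have h4 := eLp hn0 (fun x => fderiv ℝ (u j) x - G x) (volume.restrict (K j))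
              rw [← h4]
              exact pow_le_pow_left' (hu3 j) n
            rw [h2]
            calc (2 ^ (j + 1)) ^ n * ∫⁻ x in K j, b j x ^ n
                ≤ (2 ^ (j + 1)) ^ n * ((4⁻¹ : ℝ≥0∞) ^ (j + 1)) ^ n := by gcongr
              _ = ((2⁻¹ : ℝ≥0∞) ^ (j + 1)) ^ n := by
                  rw [← mul_pow, ← mul_pow]
                  congr 2
                  rw [show (4 : ℝ≥0∞) = 2 * 2 by norm_num, ENNReal.mul_inv (by simp) (by simp),
                    ← mul_assoc, ENNReal.mul_inv_cancel (by simp) (by simp), one_mul]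
              _ ≤ ((2⁻¹ : ℝ≥0∞) ^ (j + 1)) ^ 1 := by
                  refine pow_le_pow_right_of_le_one' ?_ (by omega)
                  exact pow_le_one' (by simp) _
              _ = (2⁻¹ : ℝ≥0∞) ^ (j + 1) := pow_one _
        _ = 1 := geo
    exact ne_top_of_le_ne_top ENNReal.one_ne_top h1
  · intro γ hγ p q hpq hin hfin
    obtain ⟨j0, hj0⟩ := hKC (γ '' Icc p q) (isCompact_Icc.image hγ.continuous)
      (by rintro _ ⟨s, hs, rfl⟩; exact hin s hs)
    have hγm : Measurable γ := hγ.continuous.measurable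
    have hsum : ∫⁻ s in Icc p q, ∑' j, a j (γ s) = ∑' j, ∫⁻ s in Icc p q, a j (γ s) :=
      lintegral_tsum fun j => ((ham j).comp hγm).aemeasurable
    have ht : Tendsto (fun j => ∫⁻ s in Icc p q, a j (γ s)) atTop (𝓝 0) :=
      ENNReal.tendsto_atTop_zero_of_tsum_ne_top (by rw [← hsum]; exact hfin)
    have hineq : ∀ j ≥ j0, ENNReal.ofReal |w (γ q) - w (γ p)| ≤
        (∫⁻ s in Icc p q, ENNReal.ofReal ‖G (γ s)‖) +
          ((∫⁻ s in Icc p q, a j (γ s)) + ENNReal.ofReal (2 * (1 / 2 : ℝ) ^ j)) := by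
      intro j hj
      have hq : γ q ∈ K j := hj0 j hj ⟨q, right_mem_Icc.2 hpq, rfl⟩
      have hp : γ p ∈ K j := hj0 j hj ⟨p, left_mem_Icc.2 hpq, rfl⟩
      have h1 := hu2 j _ hq
      have h2 := hu2 j _ hp
      have h3 : |w (γ q) - w (γ p)| ≤ |u j (γ q) - u j (γ p)| + 2 * (1 / 2 : ℝ) ^ j := by
        rw [abs_le] at h1 h2 ⊢
        have h4 := abs_le.1 (le_refl |u j (γ q) - u j (γ p)|)
        constructor <;> linarith [h4.1, h4.2, h1.1, h1.2, h2.1, h2.2]
      have h5 : (∫⁻ s in Icc p q, ‖fderiv ℝ (u j) (γ s)‖ₑ) ≤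
          (∫⁻ s in Icc p q, ENNReal.ofReal ‖G (γ s)‖) + ∫⁻ s in Icc p q, a j (γ s) := by
        rw [← lintegral_add_left (by
          exact (hGm.comp hγm).norm.ennreal_ofReal)]
        refine setLIntegral_mono' measurableSet_Icc fun s hs => ?_
        have hs' : γ s ∈ K j := hj0 j hj ⟨s, hs, rfl⟩
        simp only [ha, indicator_of_mem hs', hb, ofReal_norm]
        exact enorm_tri _ _
      calc ENNReal.ofReal |w (γ q) - w (γ p)|
          ≤ ENNReal.ofReal (|u j (γ q) - u j (γ p)| + 2 * (1 / 2 : ℝ) ^ j) :=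
            ENNReal.ofReal_le_ofReal h3
        _ = ENNReal.ofReal |u j (γ q) - u j (γ p)| + ENNReal.ofReal (2 * (1 / 2 : ℝ) ^ j) :=
            ENNReal.ofReal_add (abs_nonneg _) (by positivity)
        _ ≤ ((∫⁻ s in Icc p q, ENNReal.ofReal ‖G (γ s)‖) + ∫⁻ s in Icc p q, a j (γ s)) +
              ENNReal.ofReal (2 * (1 / 2 : ℝ) ^ j) := by
            gcongr
            exact (curve (hu1 j) hγ hpq).trans h5
        _ = _ := add_assoc _ _ _
    have hlim : Tendsto (fun j : ℕ => (∫⁻ s in Icc p q, ENNReal.ofReal ‖G (γ s)‖) +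
          ((∫⁻ s in Icc p q, a j (γ s)) + ENNReal.ofReal (2 * (1 / 2 : ℝ) ^ j))) atTop
        (𝓝 (∫⁻ s in Icc p q, ENNReal.ofReal ‖G (γ s)‖)) := by
      have h1 : Tendsto (fun j : ℕ => ENNReal.ofReal (2 * (1 / 2 : ℝ) ^ j)) atTop (𝓝 0) := by
        rw [← ENNReal.ofReal_zero]
        apply ENNReal.tendsto_ofReal
        have := (tendsto_pow_atTop_nhds_zero_of_lt_one (r := (1 / 2 : ℝ)) (by norm_num)
          (by norm_num)).const_mul 2
        rwa [mul_zero] at this
      have h2 := (ht.add h1).const_add (∫⁻ s in Icc p q, ENNReal.ofReal ‖G (γ s)‖)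
      rwa [add_zero, add_zero] at h2
    exact ge_of_tendsto hlim (eventually_atTop.2 ⟨j0, hineq⟩)

end Pool.Agent.TH221
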