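import Pool.Agent.TH281.HB.Defs

set_option autoImplicit false

/-!
# One arm from a Mazur sequence (job 1153, requested by helper281)
-/

namespace Pool.Agent.TH571.J1153

open Pool.Agent.TH281.HB Metric

section dist

variable {Y : Type*} [NormedAddCommGroup Y] [NormedSpace ℝ Y]

/-- distance to a subspace -/
noncomputable def d (G : Submodule ℝ Y) (w : Y) : ℝ := infDist w (G : Set Y)

theorem d_nonneg (G : Submodule ℝ Y) (w : Y) : 0 ≤ d G w := infDist_nonneg

theorem d_le (G : Submodule ℝ Y) (w : Y) {g : Y} (hg : g ∈ G) : d G w ≤ ‖w - g‖ := by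
  rw [← dist_eq_norm]
  exact infDist_le_dist_of_mem hg

theorem d_le_norm (G : Submodule ℝ Y) (w : Y) : d G w ≤ ‖w‖ := by
  have := d_le G w G.zero_mem
  rwa [sub_zero] at this

theorem d_mem (G : Submodule ℝ Y) {w : Y} (hw : w ∈ G) : d G w = 0 := infDist_zero_of_mem hw

theorem exists_near (G : Submodule ℝ Y) (w : Y) {ε : ℝ} (hε : 0 < ε) :
    ∃ g ∈ G, ‖w - g‖ < d G w + ε := by
  have h : infDist w (G : Set Y) < d G w + ε := by
    unfold d
    linarith
  obtain ⟨g, hg, hg'⟩ := (infDist_lt_iff ⟨0, G.zero_mem⟩).1 h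
  refine ⟨g, hg, ?_⟩
  rwa [dist_eq_norm] at hg'

theorem le_d (G : Submodule ℝ Y) (w : Y) {c : ℝ} (h : ∀ g ∈ G, c ≤ ‖w - g‖) : c ≤ d G w := by
  refine le_of_forall_pos_le_add fun ε hε => ?_
  obtain ⟨g, hg, hg'⟩ := exists_near G w hε
  exact (h g hg).trans hg'.le

theorem d_anti {G H : Submodule ℝ Y} (h : G ≤ H) (w : Y) : d H w ≤ d G w :=
  le_d G w fun _ hg => d_le H w (h hg)

theorem d_add (G : Submodule ℝ Y) (w w' : Y) : d G (w + w') ≤ d G w + d G w' := by
  refine le_of_forall_pos_le_add fun ε hε => ?_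
  obtain ⟨g, hg, hg'⟩ := exists_near G w (half_pos hε)
  obtain ⟨k, hk, hk'⟩ := exists_near G w' (half_pos hε)
  have h1 := d_le G (w + w') (G.add_mem hg hk)
  have h2 : w + w' - (g + k) = (w - g) + (w' - k) := by abel
  rw [h2] at h1
  have h3 := norm_add_le (w - g) (w' - k)
  linarith

theorem d_smul_le (G : Submodule ℝ Y) (r : ℝ) (w : Y) : d G (r • w) ≤ |r| * d G w := by
  rcases eq_or_ne r 0 with h0 | h0
  · subst h0
    rw [zero_smul, d_mem G G.zero_mem, abs_zero, zero_mul]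
  · have hr : 0 < |r| := abs_pos.2 h0
    have h : d G (r • w) / |r| ≤ d G w := by
      apply le_d
      intro g hg
      rw [div_le_iff₀ hr]
      have h1 := d_le G (r • w) (G.smul_mem r hg)
      rw [← smul_sub, norm_smul, Real.norm_eq_abs] at h1
      linarith
    rw [div_le_iff₀ hr] at h
    linarith

theorem d_smul (G : Submodule ℝ Y) (r : ℝ) (w : Y) : d G (r • w) = |r| * d G w := by
  apply le_antisymm (d_smul_le G r w)
  rcases eq_or_ne r 0 with h0 | h0
  · subst h0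
    rw [abs_zero, zero_mul]
    exact d_nonneg _ _
  · have hr : 0 < |r| := abs_pos.2 h0
    have h := d_smul_le G r⁻¹ (r • w)
    rw [smul_smul, inv_mul_cancel₀ h0, one_smul, abs_inv] at h
    calc |r| * d G w ≤ |r| * (|r|⁻¹ * d G (r • w)) := mul_le_mul_of_nonneg_left h hr.le
      _ = d G (r • w) := by rw [← mul_assoc, mul_inv_cancel₀ hr.ne', one_mul]

/-- a bound by both distances from the bound for elements -/
theorem le_two (G B : Submodule ℝ Y) (w : Y) {c α β : ℝ} (hα : 0 ≤ α) (hβ : 0 ≤ β)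
    (h : ∀ g ∈ G, ∀ b ∈ B, c ≤ α * ‖w - g‖ + β * ‖w - b‖) : c ≤ α * d G w + β * d B w := by
  refine le_of_forall_pos_le_add fun ε hε => ?_
  have hpos : 0 < α + β + 1 := by linarith
  have hε' : 0 < ε / (α + β + 1) := div_pos hε hpos
  obtain ⟨g, hg, hg'⟩ := exists_near G w hε'
  obtain ⟨b, hb, hb'⟩ := exists_near B w hε'
  have h1 := h g hg b hb
  have h2 := mul_le_mul_of_nonneg_left hg'.le hα
  have h3 := mul_le_mul_of_nonneg_left hb'.le hβ
  have h4 : (α + β) * (ε / (α + β + 1)) ≤ ε := by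
    rw [mul_div_assoc']
    rw [div_le_iff₀ hpos]
    nlinarith
  nlinarith

end dist

section interp

variable {E : Type*} [NormedAddCommGroup E] [NormedSpace ℝ E]

theorem frac_nonneg {s : ℝ} (hs : 0 ≤ s) : 0 ≤ s - (⌊s⌋₊ : ℝ) := sub_nonneg.2 (Nat.floor_le hs)

theorem frac_le {s : ℝ} : s - (⌊s⌋₊ : ℝ) ≤ 1 := by
  have := Nat.lt_floor_add_one s
  linarith

theorem interp_real (f : ℕ → ℝ) (s : ℝ) :
    interp f s = (1 - (s - (⌊s⌋₊ : ℝ))) * f ⌊s⌋₊ + (s - (⌊s⌋₊ : ℝ)) * f (⌊s⌋₊ + 1) := by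
  unfold interp
  rw [smul_eq_mul, smul_eq_mul]

theorem interp_le {f g : ℕ → ℝ} {s : ℝ} (hs : 0 ≤ s) (h : ∀ k, f k ≤ g k) :
    interp f s ≤ interp g s := by
  rw [interp_real, interp_real]
  have h1 := frac_nonneg hs
  have h2 := frac_le (s := s)
  have h3 := mul_le_mul_of_nonneg_left (h ⌊s⌋₊) (sub_nonneg.2 h2)
  have h4 := mul_le_mul_of_nonneg_left (h (⌊s⌋₊ + 1)) h1
  linarith

theorem interp_const (c : ℝ) (s : ℝ) : interp (fun _ => c) s = c := by
  rw [interp_real]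
  ring

theorem interp_add (f g : ℕ → ℝ) (s : ℝ) :
    interp (fun k => f k + g k) s = interp f s + interp g s := by
  rw [interp_real, interp_real, interp_real]
  ring

theorem interp_mul (c : ℝ) (f : ℕ → ℝ) (s : ℝ) :
    interp (fun k => c * f k) s = c * interp f s := by
  rw [interp_real, interp_real]
  ring

theorem interp_natCast (f : ℕ → E) (k : ℕ) : interp f (k : ℝ) = f k := by
  unfold interp
  rw [Nat.floor_natCast, sub_self, sub_zero, one_smul, zero_smul, add_zero]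

theorem interp_zero (f : ℕ → E) : interp f 0 = f 0 := by
  have := interp_natCast f 0
  rwa [Nat.cast_zero] at this

/-- a lower bound only at the two relevant integers -/
theorem le_interp {f : ℕ → ℝ} {s c : ℝ} (hs : 0 ≤ s) (h1 : c ≤ f ⌊s⌋₊) (h2 : c ≤ f (⌊s⌋₊ + 1)) :
    c ≤ interp f s := by
  rw [interp_real]
  have h3 := frac_nonneg hs
  have h4 := frac_le (s := s)
  have h5 := mul_le_mul_of_nonneg_left h1 (sub_nonneg.2 h4)
  have h6 := mul_le_mul_of_nonneg_left h2 h3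
  linarith

theorem interp_le_of {f : ℕ → ℝ} {s c : ℝ} (hs : 0 ≤ s) (h1 : f ⌊s⌋₊ ≤ c)
    (h2 : f (⌊s⌋₊ + 1) ≤ c) : interp f s ≤ c := by
  rw [interp_real]
  have h3 := frac_nonneg hs
  have h4 := frac_le (s := s)
  have h5 := mul_le_mul_of_nonneg_left h1 (sub_nonneg.2 h4)
  have h6 := mul_le_mul_of_nonneg_left h2 h3
  linarith

theorem interp_mono {f : ℕ → ℝ} (hf : Monotone f) {s s' : ℝ} (hs : 0 ≤ s) (hss : s ≤ s') :
    interp f s ≤ interp f s' := by
  have hs' : 0 ≤ s' := hs.trans hss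
  rcases (Nat.floor_le_floor hss).eq_or_lt with h | h
  · rw [interp_real, interp_real, ← h]
    have h1 : f ⌊s⌋₊ ≤ f (⌊s⌋₊ + 1) := hf (Nat.le_succ _)
    nlinarith
  · have h1 : interp f s ≤ f (⌊s⌋₊ + 1) :=
      interp_le_of hs (hf (Nat.le_succ _)) le_rfl
    have h2 : f ⌊s'⌋₊ ≤ interp f s' := le_interp hs' le_rfl (hf (Nat.le_succ _))
    exact h1.trans ((hf h).trans h2)

theorem interp_anti {f : ℕ → ℝ} (hf : Antitone f) {s s' : ℝ} (hs : 0 ≤ s) (hss : s ≤ s') :
    interp f s' ≤ interp f s := by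
  have hs' : 0 ≤ s' := hs.trans hss
  rcases (Nat.floor_le_floor hss).eq_or_lt with h | h
  · rw [interp_real, interp_real, ← h]
    have h1 : f (⌊s⌋₊ + 1) ≤ f ⌊s⌋₊ := hf (Nat.le_succ _)
    nlinarith
  · have h1 : f (⌊s⌋₊ + 1) ≤ interp f s :=
      le_interp hs (hf (Nat.le_succ _)) le_rfl
    have h2 : interp f s' ≤ f ⌊s'⌋₊ := interp_le_of hs' le_rfl (hf (Nat.le_succ _))
    exact h2.trans ((hf h).trans h1)

omit [NormedSpace ℝ E] in
theorem norm_sub_le_mul {f : ℕ → E} {L : ℝ} (hf : ∀ k, ‖f (k + 1) - f k‖ ≤ L) {a b : ℕ}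
    (hab : a ≤ b) : ‖f b - f a‖ ≤ L * ((b : ℝ) - a) := by
  induction b, hab using Nat.le_induction with
  | base => simp
  | succ b _ ih =>
    have h1 : f (b + 1) - f a = (f (b + 1) - f b) + (f b - f a) := by abel
    rw [h1]
    have h2 := norm_add_le (f (b + 1) - f b) (f b - f a)
    have h3 := hf b
    push_cast
    linarith

theorem interp_lip_le {f : ℕ → E} {L : ℝ} (hf : ∀ k, ‖f (k + 1) - f k‖ ≤ L) {s s' : ℝ}
    (hs : 0 ≤ s) (hss : s ≤ s') : ‖interp f s' - interp f s‖ ≤ L * (s' - s) := by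
  have hs' : 0 ≤ s' := hs.trans hss
  have hL : 0 ≤ L := (norm_nonneg _).trans (hf 0)
  rcases (Nat.floor_le_floor hss).eq_or_lt with h | h
  · have h1 : interp f s' - interp f s = (s' - s) • (f (⌊s⌋₊ + 1) - f ⌊s⌋₊) := by
      unfold interp
      rw [← h]
      module
    rw [h1, norm_smul, Real.norm_eq_abs, abs_of_nonneg (sub_nonneg.2 hss), mul_comm]
    exact mul_le_mul_of_nonneg_right (hf _) (sub_nonneg.2 hss)
  · have e1 : interp f s' - f ⌊s'⌋₊ = (s' - (⌊s'⌋₊ : ℝ)) • (f (⌊s'⌋₊ + 1) - f ⌊s'⌋₊) := by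
      unfold interp
      module
    have e2 : f (⌊s⌋₊ + 1) - interp f s
        = (1 - (s - (⌊s⌋₊ : ℝ))) • (f (⌊s⌋₊ + 1) - f ⌊s⌋₊) := by
      unfold interp
      module
    have h1 : ‖interp f s' - f ⌊s'⌋₊‖ ≤ L * (s' - (⌊s'⌋₊ : ℝ)) := by
      rw [e1, norm_smul, Real.norm_eq_abs, abs_of_nonneg (frac_nonneg hs'), mul_comm]
      exact mul_le_mul_of_nonneg_right (hf _) (frac_nonneg hs')
    have h2 : ‖f (⌊s⌋₊ + 1) - interp f s‖ ≤ L * (1 - (s - (⌊s⌋₊ : ℝ))) := by
      have h0 : 0 ≤ 1 - (s - (⌊s⌋₊ : ℝ)) := sub_nonneg.2 frac_le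
      rw [e2, norm_smul, Real.norm_eq_abs, abs_of_nonneg h0, mul_comm]
      exact mul_le_mul_of_nonneg_right (hf _) h0
    have h3 := norm_sub_le_mul hf (show ⌊s⌋₊ + 1 ≤ ⌊s'⌋₊ from h)
    have e3 : interp f s' - interp f s
        = (interp f s' - f ⌊s'⌋₊) + (f ⌊s'⌋₊ - f (⌊s⌋₊ + 1)) + (f (⌊s⌋₊ + 1) - interp f s) := by
      abel
    rw [e3]
    have h4 := norm_add₃_le (a := interp f s' - f ⌊s'⌋₊) (b := f ⌊s'⌋₊ - f (⌊s⌋₊ + 1))
      (c := f (⌊s⌋₊ + 1) - interp f s)
    push_cast at h3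
    nlinarith

theorem interp_lip {f : ℕ → E} {L : ℝ} (hf : ∀ k, ‖f (k + 1) - f k‖ ≤ L) {s s' : ℝ}
    (hs : 0 ≤ s) (hs' : 0 ≤ s') : ‖interp f s - interp f s'‖ ≤ L * |s - s'| := by
  rcases le_total s s' with h | h
  · rw [norm_sub_rev, abs_sub_comm, abs_of_nonneg (sub_nonneg.2 h)]
    exact interp_lip_le hf hs h
  · rw [abs_of_nonneg (sub_nonneg.2 h)]
    exact interp_lip_le hf hs' h

theorem frac_sub {s : ℝ} (hs : 4 ≤ s) : s - 4 - (⌊s - 4⌋₊ : ℝ) = s - (⌊s⌋₊ : ℝ) := by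
  have h1 : ⌊s - 4⌋₊ = ⌊s⌋₊ - 4 := by
    simp
  have h2 : 4 ≤ ⌊s⌋₊ := Nat.le_floor (by exact_mod_cast hs)
  rw [h1, Nat.cast_sub h2]
  push_cast
  ring

theorem floor_sub {s : ℝ} : ⌊s - 4⌋₊ = ⌊s⌋₊ - 4 := by
  simp

end interp

section arm

variable {Y : Type*} [NormedAddCommGroup Y] [NormedSpace ℝ Y]

/-- directions -/
def GG (z : ℕ → Y) (o M k : ℕ) : Submodule ℝ Y :=
  Submodule.span ℝ (z '' {i | o ≤ i ∧ i + k ≤ M})

/-- poles -/
def BB (z : ℕ → Y) (M k : ℕ) : Submodule ℝ Y :=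
  Submodule.span ℝ (z '' {i | M < i + k ∧ i ≤ M})

theorem GG_anti (z : ℕ → Y) (o M : ℕ) {k l : ℕ} (h : k ≤ l) : GG z o M l ≤ GG z o M k := by
  apply Submodule.span_mono
  apply Set.image_mono
  rintro i ⟨h1, h2⟩
  exact ⟨h1, by omega⟩

theorem BB_mono (z : ℕ → Y) (M : ℕ) {k l : ℕ} (h : k ≤ l) : BB z M k ≤ BB z M l := by
  apply Submodule.span_mono
  apply Set.image_mono
  rintro i ⟨h1, h2⟩
  exact ⟨by omega, h2⟩

theorem mem_GG (z : ℕ → Y) {o M k i : ℕ} (h1 : o ≤ i) (h2 : i + k ≤ M) : z i ∈ GG z o M k :=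
  Submodule.subset_span ⟨i, ⟨h1, h2⟩, rfl⟩

theorem mem_BB (z : ℕ → Y) {M k i : ℕ} (h1 : M < i + k) (h2 : i ≤ M) : z i ∈ BB z M k :=
  Submodule.subset_span ⟨i, ⟨h1, h2⟩, rfl⟩

theorem GG_le (z : ℕ → Y) {o M k N : ℕ} (h : M < N + k) :
    GG z o M k ≤ Submodule.span ℝ (z '' {i | i < N}) := by
  apply Submodule.span_mono
  apply Set.image_mono
  rintro i ⟨h1, h2⟩
  show i < N
  omega

theorem BB_le (z : ℕ → Y) {M k N : ℕ} (h : N + k ≤ M + 1) :
    BB z M k ≤ Submodule.span ℝ (z '' {i | N ≤ i}) := by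
  apply Submodule.span_mono
  apply Set.image_mono
  rintro i ⟨h1, h2⟩
  show N ≤ i
  omega

theorem comp_k {z : ℕ → Y} (hz : Mazur z) (o M k : ℕ) (w : Y) :
    ‖w‖ ≤ 3 * d (GG z o M k) w + 2 * d (BB z M k) w := by
  apply le_two _ _ _ (by norm_num) (by norm_num)
  intro g hg b hb
  have h1 : ‖g‖ ≤ 2 * ‖g - b‖ := by
    rcases le_or_gt k (M + 1) with hk | hk
    · have := hz.2 (M + 1 - k) g (GG_le z (by omega) hg) (-b)
        (Submodule.neg_mem _ (BB_le z (by omega) hb))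
      rwa [← sub_eq_add_neg] at this
    · have h0 : GG z o M k = ⊥ := by
        unfold GG
        have : {i | o ≤ i ∧ i + k ≤ M} = (∅ : Set ℕ) := by
          ext i
          simp only [Set.mem_ofPred_eq, Set.mem_empty_iff_false, iff_false]
          omega
        rw [this, Set.image_empty, Submodule.span_empty]
      rw [h0, Submodule.mem_bot] at hg
      rw [hg, norm_zero]
      positivity
  have h2 : ‖w‖ ≤ ‖w - g‖ + ‖g‖ := by
    have := norm_add_le (w - g) g
    rwa [sub_add_cancel] at this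
  have h3 : ‖g - b‖ ≤ ‖w - g‖ + ‖w - b‖ := by
    have h4 : g - b = (w - b) - (w - g) := by abel
    rw [h4]
    have := norm_sub_le (w - b) (w - g)
    linarith
  linarith

theorem BB_zero (z : ℕ → Y) (M : ℕ) : BB z M 0 = ⊥ := by
  unfold BB
  have : {i | M < i + 0 ∧ i ≤ M} = (∅ : Set ℕ) := by
    ext i
    simp only [Set.mem_ofPred_eq, Set.mem_empty_iff_false, iff_false]
    omega
  rw [this, Set.image_empty, Submodule.span_empty]

theorem d_bot (w : Y) : d (⊥ : Submodule ℝ Y) w = ‖w‖ := by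
  apply le_antisymm (d_le_norm _ _)
  apply le_d
  intro g hg
  rw [Submodule.mem_bot] at hg
  rw [hg, sub_zero]

theorem interp_z (z : ℕ → Y) (M : ℕ) (s : ℝ) :
    interp (fun k => z (M + 2 - k)) s
      = (1 - (s - (⌊s⌋₊ : ℝ))) • z (M + 2 - ⌊s⌋₊) + (s - (⌊s⌋₊ : ℝ)) • z (M + 1 - ⌊s⌋₊) := by
  unfold interp
  have : M + 2 - (⌊s⌋₊ + 1) = M + 1 - ⌊s⌋₊ := by omega
  simp only [this]

theorem zero_interp {f : ℕ → ℝ} {s : ℝ} (h1 : f ⌊s⌋₊ = 0) (h2 : f (⌊s⌋₊ + 1) = 0) :
    interp f s = 0 := by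
  rw [interp_real, h1, h2]
  ring

theorem abs_sub_le_norm (G H : Submodule ℝ Y) (w : Y) : ‖d G w - d H w‖ ≤ ‖w‖ := by
  rw [Real.norm_eq_abs, abs_le]
  have h1 := d_nonneg G w
  have h2 := d_nonneg H w
  have h3 := d_le_norm G w
  have h4 := d_le_norm H w
  constructor <;> linarith

theorem exists_arm {z : ℕ → Y}
    (hz : Mazur z) (o n : ℕ) (hn : 5 ≤ n) : ∃ A : Arm Y, A.n = n ∧
      A.x = (10 : ℝ) • z (o + n + 1) ∧
      A.δ = fun y => Metric.infDist y
        (Submodule.span ℝ (z '' {i | o ≤ i ∧ i ≤ o + n + 1}) : Set Y) := by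
  obtain ⟨M, hM⟩ : ∃ M, M = o + n := ⟨_, rfl⟩
  have hfl : ∀ s : ℝ, s ≤ n → ⌊s⌋₊ ≤ n := fun s hs => by
    have := Nat.floor_le_floor hs
    rwa [Nat.floor_natCast] at this
  have h4fl : ∀ s : ℝ, 4 ≤ s → 4 ≤ ⌊s⌋₊ := fun s hs => Nat.le_floor (by exact_mod_cast hs)
  have hPnorm : ∀ s : ℝ, 4 ≤ s → s ≤ n → 1 / 5 ≤ ‖interp (fun k => z (M + 2 - k)) s‖ := by
    intro s h4 hsn
    have h0 : (0 : ℝ) ≤ s := by linarith
    have h1 := frac_nonneg h0
    have h2 := frac_le (s := s)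
    have hk := hfl s hsn
    have hk4 := h4fl s h4
    rw [interp_z]
    set μ := s - (⌊s⌋₊ : ℝ) with hμ
    set k := ⌊s⌋₊ with hkk
    have hg : μ • z (M + 1 - k) ∈ Submodule.span ℝ (z '' {i | i < M + 2 - k}) := by
      apply Submodule.smul_mem
      apply Submodule.subset_span
      exact ⟨M + 1 - k, by show M + 1 - k < M + 2 - k; omega, rfl⟩
    have hb : (1 - μ) • z (M + 2 - k) ∈ Submodule.span ℝ (z '' {i | M + 2 - k ≤ i}) := by
      apply Submodule.smul_mem
      apply Submodule.subset_span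
      exact ⟨M + 2 - k, le_refl (M + 2 - k), rfl⟩
    have h3 := hz.2 (M + 2 - k) _ hg _ hb
    rw [norm_smul, hz.1, mul_one, Real.norm_eq_abs, abs_of_nonneg h1, add_comm] at h3
    have h5 : 1 - μ ≤ ‖(1 - μ) • z (M + 2 - k) + μ • z (M + 1 - k)‖ + μ := by
      have h6 : ‖(1 - μ) • z (M + 2 - k)‖ = 1 - μ := by
        rw [norm_smul, hz.1, mul_one, Real.norm_eq_abs, abs_of_nonneg (sub_nonneg.2 h2)]
      have h7 : ‖μ • z (M + 1 - k)‖ = μ := by
        rw [norm_smul, hz.1, mul_one, Real.norm_eq_abs, abs_of_nonneg h1]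
      have h8 : (1 - μ) • z (M + 2 - k)
          = ((1 - μ) • z (M + 2 - k) + μ • z (M + 1 - k)) - μ • z (M + 1 - k) := by abel
      calc 1 - μ = ‖(1 - μ) • z (M + 2 - k)‖ := h6.symm
        _ = ‖((1 - μ) • z (M + 2 - k) + μ • z (M + 1 - k)) - μ • z (M + 1 - k)‖ := by
            rw [← h8]
        _ ≤ ‖(1 - μ) • z (M + 2 - k) + μ • z (M + 1 - k)‖ + ‖μ • z (M + 1 - k)‖ :=
            norm_sub_le _ _
        _ = _ := by rw [h7]
    linarith
  have hPν : ∀ s : ℝ, 4 ≤ s → s ≤ n →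
      interp (fun k => d (BB z M k) (interp (fun k => z (M + 2 - k)) s)) s = 0 := by
    intro s h4 hsn
    have hk := hfl s hsn
    have hk4 := h4fl s h4
    have hmem : interp (fun k => z (M + 2 - k)) s ∈ BB z M ⌊s⌋₊ := by
      rw [interp_z]
      exact Submodule.add_mem _ (Submodule.smul_mem _ _ (mem_BB z (by omega) (by omega)))
        (Submodule.smul_mem _ _ (mem_BB z (by omega) (by omega)))
    exact zero_interp (d_mem _ hmem) (d_mem _ (BB_mono z M (Nat.le_succ _) hmem))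
  have hPN : ∀ s : ℝ, 4 ≤ s → s ≤ n →
      interp (fun k => d (GG z o M k) (interp (fun k => z (M + 2 - k)) s)) (s - 4) = 0 := by
    intro s h4 hsn
    have hk := hfl s hsn
    have hk4 := h4fl s h4
    have hmem : interp (fun k => z (M + 2 - k)) s ∈ GG z o M (⌊s⌋₊ - 4 + 1) := by
      rw [interp_z]
      exact Submodule.add_mem _ (Submodule.smul_mem _ _ (mem_GG z (by omega) (by omega)))
        (Submodule.smul_mem _ _ (mem_GG z (by omega) (by omega)))
    apply zero_interp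
    · rw [floor_sub]
      exact d_mem _ (GG_anti z o M (Nat.le_succ _) hmem)
    · rw [floor_sub]
      exact d_mem _ hmem
  have hPfar : ∀ s : ℝ, 4 ≤ s → s ≤ n →
      1 / 10 ≤ interp (fun k => d (BB z M k) (interp (fun k => z (M + 2 - k)) s)) (s - 4) := by
    intro s h4 hsn
    have hk := hfl s hsn
    have hk4 := h4fl s h4
    have h5 := hPnorm s h4 hsn
    have hfar : 1 / 10 ≤ d (BB z M (⌊s⌋₊ - 4 + 1)) (interp (fun k => z (M + 2 - k)) s) := by
      apply le_d
      intro b hb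
      have hg : interp (fun k => z (M + 2 - k)) s
          ∈ Submodule.span ℝ (z '' {i | i < M + 4 - ⌊s⌋₊}) := by
        rw [interp_z]
        apply Submodule.add_mem
        · apply Submodule.smul_mem
          apply Submodule.subset_span
          exact ⟨M + 2 - ⌊s⌋₊, by show M + 2 - ⌊s⌋₊ < M + 4 - ⌊s⌋₊; omega, rfl⟩
        · apply Submodule.smul_mem
          apply Submodule.subset_span
          exact ⟨M + 1 - ⌊s⌋₊, by show M + 1 - ⌊s⌋₊ < M + 4 - ⌊s⌋₊; omega, rfl⟩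
      have := hz.2 (M + 4 - ⌊s⌋₊) _ hg (-b)
        (Submodule.neg_mem _ (BB_le z (by omega) hb))
      rw [← sub_eq_add_neg] at this
      linarith
    apply le_interp (by linarith)
    · rw [floor_sub]
      exact hfar.trans (d_anti (BB_mono z M (Nat.le_succ _)) _)
    · rw [floor_sub]
      exact hfar
  refine ⟨{
    n := n
    x := (10 : ℝ) • z (o + n + 1)
    e := z o
    N := fun s w => interp (fun k => d (GG z o M k) w) s
    ν := fun s w => interp (fun k => d (BB z M k) w) s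
    P := fun s => interp (fun k => z (M + 2 - k)) s
    δ := fun y => Metric.infDist y
        (Submodule.span ℝ (z '' {i | o ≤ i ∧ i ≤ o + n + 1}) : Set Y)
    N_add := ?_
    N_smul := ?_
    N_le := ?_
    N_mono := ?_
    N_lip := ?_
    ν_add := ?_
    ν_smul := ?_
    ν_le := ?_
    ν_anti := ?_
    ν_lip := ?_
    ν_zero := ?_
    comp := ?_
    P_ν := ?_
    P_N := ?_
    P_far := ?_
    P_norm := ?_
    P_lip := ?_
    x_norm := ?_
    x_far := ?_
    e_norm := ?_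
    e_N := ?_
    hn := hn
    δ_le := ?_ }, rfl, rfl, rfl⟩
  · intro s hs w w'
    rw [← interp_add]
    exact interp_le hs fun k => d_add _ _ _
  · intro s hs r w
    rw [← interp_mul]
    simp only [d_smul]
  · intro s hs w
    rw [← interp_const ‖w‖ s]
    exact interp_le hs fun k => d_le_norm _ _
  · intro s s' hs hss w
    exact interp_mono (fun a b hab => d_anti (GG_anti z o M hab) w) hs hss
  · intro s s' hs hs' w
    rw [mul_comm]
    exact interp_lip (f := fun k => d (GG z o M k) w) (fun k => abs_sub_le_norm _ _ w) hs hs'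
  · intro s hs w w'
    rw [← interp_add]
    exact interp_le hs fun k => d_add _ _ _
  · intro s hs r w
    rw [← interp_mul]
    simp only [d_smul]
  · intro s hs w
    rw [← interp_const ‖w‖ s]
    exact interp_le hs fun k => d_le_norm _ _
  · intro s s' hs hss w
    exact interp_anti (fun a b hab => d_anti (BB_mono z M hab) w) hs hss
  · intro s s' hs hs' w
    rw [mul_comm]
    exact interp_lip (f := fun k => d (BB z M k) w) (fun k => abs_sub_le_norm _ _ w) hs hs'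
  · intro w
    show interp (fun k => d (BB z M k) w) 0 = ‖w‖
    rw [interp_zero, BB_zero, d_bot]
  · intro s hs w
    rw [← interp_add, ← interp_mul, ← interp_const ‖w‖ s]
    apply interp_le hs
    intro k
    show ‖w‖ ≤ 3 * (d (BB z M k) w + d (GG z o M k) w)
    have := comp_k hz o M k w
    have h1 := d_nonneg (BB z M k) w
    linarith
  · intro s h4 hsn
    exact hPν s (by exact_mod_cast h4) (by exact_mod_cast hsn)
  · intro s h4 hsn
    exact hPN s (by exact_mod_cast h4) (by exact_mod_cast hsn)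
  · intro s h4 hsn
    exact hPfar s (by exact_mod_cast h4) (by exact_mod_cast hsn)
  · intro s hs
    show ‖interp (fun k => z (M + 2 - k)) s‖ ≤ 1
    rw [interp_z]
    have h1 := frac_nonneg hs
    have h2 := frac_le (s := s)
    refine (norm_add_le _ _).trans ?_
    rw [norm_smul, norm_smul, hz.1, hz.1, Real.norm_eq_abs, Real.norm_eq_abs, abs_of_nonneg h1,
      abs_of_nonneg (sub_nonneg.2 h2)]
    linarith
  · intro s s' hs hs'
    apply interp_lip _ hs hs'
    intro k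
    refine (norm_sub_le _ _).trans ?_
    rw [hz.1, hz.1]
    norm_num
  · rw [norm_smul, hz.1, Real.norm_eq_abs]
    norm_num
  · intro r w
    show ‖w‖ ≤ 2 * ‖w + r • (10 : ℝ) • z (o + n + 1)‖ + 3 * interp (fun k => d (GG z o M k) w) 0
    rw [interp_zero]
    have h := le_two (GG z o M 0) ⊥ w (c := ‖w‖ - 2 * ‖w + r • (10 : ℝ) • z (o + n + 1)‖)
      (α := 3) (β := 0) (by norm_num) (by norm_num) (fun g hg b _ => by
        have hx : r • (10 : ℝ) • z (o + n + 1) ∈ Submodule.span ℝ (z '' {i | M + 1 ≤ i}) := by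
          apply Submodule.smul_mem
          apply Submodule.smul_mem
          apply Submodule.subset_span
          exact ⟨o + n + 1, by show M + 1 ≤ o + n + 1; omega, rfl⟩
        have h1 := hz.2 (M + 1) g (GG_le z (by omega) hg) _ hx
        have h2 : ‖w‖ ≤ ‖w - g‖ + ‖g‖ := by
          have := norm_add_le (w - g) g
          rwa [sub_add_cancel] at this
        have h3 : ‖g + r • (10 : ℝ) • z (o + n + 1)‖
            ≤ ‖w - g‖ + ‖w + r • (10 : ℝ) • z (o + n + 1)‖ := by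
          have h4 : g + r • (10 : ℝ) • z (o + n + 1)
              = (w + r • (10 : ℝ) • z (o + n + 1)) - (w - g) := by abel
          rw [h4]
          have := norm_sub_le (w + r • (10 : ℝ) • z (o + n + 1)) (w - g)
          linarith
        linarith)
    linarith
  · exact hz.1 o
  · show interp (fun k => d (GG z o M k) (z o)) (n : ℝ) = 0
    rw [interp_natCast]
    exact d_mem _ (mem_GG z le_rfl (by omega))
  · intro ρ r w
    show d (Submodule.span ℝ (z '' {i | o ≤ i ∧ i ≤ o + n + 1}))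
      (r • (10 : ℝ) • z (o + n + 1) + ρ • w) ≤ |ρ| * interp (fun k => d (GG z o M k) w) 0
    rw [interp_zero]
    have h1 := d_add (Submodule.span ℝ (z '' {i | o ≤ i ∧ i ≤ o + n + 1}))
      (r • (10 : ℝ) • z (o + n + 1)) (ρ • w)
    have h2 : d (Submodule.span ℝ (z '' {i | o ≤ i ∧ i ≤ o + n + 1}))
        (r • (10 : ℝ) • z (o + n + 1)) = 0 := by
      apply d_mem
      apply Submodule.smul_mem
      apply Submodule.smul_mem
      apply Submodule.subset_span
      exact ⟨o + n + 1, ⟨by omega, le_rfl⟩, rfl⟩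
    rw [h2, zero_add, d_smul] at h1
    refine h1.trans (mul_le_mul_of_nonneg_left ?_ (abs_nonneg _))
    apply d_anti
    apply Submodule.span_mono
    apply Set.image_mono
    rintro i ⟨hi1, hi2⟩
    exact ⟨hi1, by omega⟩

end arm

end Pool.Agent.TH571.J1153
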