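import Pool.Agent.TH281.HB.Defs

set_option autoImplicit false

/-!
# A family of arms with open, pairwise disjoint regions (job 1154, requested by helper281)
-/

namespace Pool.Agent.TH571.J1154

open Pool.Agent.TH281.HB Metric

variable {Y : Type*} [NormedAddCommGroup Y] [NormedSpace ℝ Y]

/-- the span of the block `[a, b]` -/
def blk (z : ℕ → Y) (a b : ℕ) : Submodule ℝ Y := Submodule.span ℝ (z '' {i | a ≤ i ∧ i ≤ b})

theorem near {F : Submodule ℝ Y} {y : Y} {c : ℝ} (h : infDist y (F : Set Y) < c) :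
    ∃ f ∈ F, ‖y - f‖ < c := by
  obtain ⟨f, hf, hf'⟩ := (infDist_lt_iff ⟨0, F.zero_mem⟩).1 h
  exact ⟨f, hf, by rwa [dist_eq_norm] at hf'⟩

theorem sep {z : ℕ → Y} (hz : Mazur z) {a b c d : ℕ} (hbc : b < c) {f g : Y}
    (hf : f ∈ blk z a b) (hg : g ∈ blk z c d) : ‖f‖ ≤ 2 * ‖f - g‖ ∧ ‖g‖ ≤ 3 * ‖f - g‖ := by
  have h1 : blk z a b ≤ Submodule.span ℝ (z '' {i | i < c}) := by
    apply Submodule.span_mono
    apply Set.image_mono
    rintro i ⟨_, h⟩
    exact lt_of_le_of_lt h hbc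
  have h2 : blk z c d ≤ Submodule.span ℝ (z '' {i | c ≤ i}) := by
    apply Submodule.span_mono
    apply Set.image_mono
    rintro i ⟨h, _⟩
    exact h
  have h3 := hz.2 c f (h1 hf) (-g) (Submodule.neg_mem _ (h2 hg))
  rw [← sub_eq_add_neg] at h3
  refine ⟨h3, ?_⟩
  have h4 : ‖g‖ ≤ ‖f‖ + ‖f - g‖ := by
    have := norm_sub_le f (f - g)
    rwa [sub_sub_cancel] at this
  linarith

theorem disj {z : ℕ → Y} (hz : Mazur z) {a b c d : ℕ} (hab : a ≤ b) (hcd : c ≤ d) (hbc : b < c)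
    (A B : Arm Y) (hAx : A.x = (10 : ℝ) • z b) (hBx : B.x = (10 : ℝ) • z d)
    (hA : A.δ = fun y => infDist y (blk z a b : Set Y))
    (hB : B.δ = fun y => infDist y (blk z c d : Set Y)) : Disjoint A.reg B.reg := by
  have xA : A.x ∈ blk z a b := by
    rw [hAx]
    exact Submodule.smul_mem _ _ (Submodule.subset_span ⟨b, ⟨hab, le_rfl⟩, rfl⟩)
  have xB : B.x ∈ blk z c d := by
    rw [hBx]
    exact Submodule.smul_mem _ _ (Submodule.subset_span ⟨d, ⟨hcd, le_rfl⟩, rfl⟩)
  have nA := A.x_norm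
  have nB := B.x_norm
  rw [Set.disjoint_left]
  rintro y hyA hyB
  rcases hyA with h1 | ⟨h1, h1'⟩ <;> rcases hyB with h2 | ⟨h2, h2'⟩
  · have h3 := (sep hz hbc xA xB).1
    have h4 : A.x - B.x = (y - B.x) - (y - A.x) := by abel
    rw [h4, nA] at h3
    have h5 := norm_sub_le (y - B.x) (y - A.x)
    linarith
  · rw [hB] at h2
    obtain ⟨g, hg, hg'⟩ := near h2
    have h3 := (sep hz hbc xA hg).1
    have h4 : A.x - g = (y - g) - (y - A.x) := by abel
    rw [h4, nA] at h3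
    have h5 := norm_sub_le (y - g) (y - A.x)
    linarith
  · rw [hA] at h1
    obtain ⟨f, hf, hf'⟩ := near h1
    have h3 := (sep hz hbc hf xB).2
    have h4 : f - B.x = (y - B.x) - (y - f) := by abel
    rw [h4, nB] at h3
    have h5 := norm_sub_le (y - B.x) (y - f)
    linarith
  · rw [hA] at h1
    rw [hB] at h2
    obtain ⟨f, hf, hf'⟩ := near h1
    obtain ⟨g, hg, hg'⟩ := near h2
    have h3 := (sep hz hbc hf hg).1
    have h4 : f - g = (y - g) - (y - f) := by abel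
    rw [h4] at h3
    have h5 := norm_sub_le (y - g) (y - f)
    have h6 : ‖y‖ ≤ ‖y - f‖ + ‖f‖ := by
      have := norm_add_le (y - f) f
      rwa [sub_add_cancel] at this
    linarith

theorem isOpen_reg (A : Arm Y) (F : Submodule ℝ Y)
    (hA : A.δ = fun y => infDist y (F : Set Y)) : IsOpen A.reg := by
  have h1 : IsOpen {y : Y | ‖y - A.x‖ < 1} :=
    isOpen_lt (by fun_prop) continuous_const
  have h2 : IsOpen {y : Y | A.δ y < 4 / 250} := by
    rw [hA]
    exact isOpen_lt (continuous_infDist_pt _) continuous_const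
  have h3 : IsOpen {y : Y | 1 / 4 < ‖y‖} := isOpen_lt continuous_const continuous_norm
  exact h1.union (h2.inter h3)

theorem off_lt {k l : ℕ} (h : k < l) : (k + 10) ^ 2 + (k + 5) + 1 < (l + 10) ^ 2 := by
  nlinarith

theorem exists_family {z : ℕ → Y}
    (hz : Mazur z) (harm : ∀ o n : ℕ, 5 ≤ n → ∃ A : Arm Y, A.n = n ∧
      A.x = (10 : ℝ) • z (o + n + 1) ∧
      A.δ = fun y => Metric.infDist y
        (Submodule.span ℝ (z '' {i | o ≤ i ∧ i ≤ o + n + 1}) : Set Y)) :
    ∃ A : ℕ → Arm Y, (∀ k, k ≤ (A k).n) ∧ (∀ k, IsOpen (A k).reg) ∧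
      ∀ k l, k ≠ l → Disjoint (A k).reg (A l).reg := by
  choose A hn hx hδ using fun k : ℕ => harm ((k + 10) ^ 2) (k + 5) (by omega)
  have key : ∀ k l, k < l → Disjoint (A k).reg (A l).reg := by
    intro k l hkl
    exact disj hz (by omega) (by omega) (off_lt hkl) (A k) (A l) (hx k) (hx l) (hδ k) (hδ l)
  refine ⟨A, fun k => ?_, fun k => isOpen_reg (A k) _ (hδ k), fun k l hkl => ?_⟩
  · rw [hn k]
    omega
  · rcases lt_or_gt_of_ne hkl with h | h
    · exact key k l h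
    · exact (key l k h).symm

end Pool.Agent.TH571.J1154
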