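import Mathlib

set_option autoImplicit false

open Filter Topology Set Cardinal
open scoped Pointwise

namespace Pool.Agent.TH571.SG

universe u v

/-- sequentially continuous homomorphisms to Hausdorff groups are continuous -/
def SeqHomCont (G : Type u) [AddCommGroup G] [TopologicalSpace G] : Prop :=
  ∀ (H : Type v) [Group H] [TopologicalSpace H] [IsTopologicalGroup H] [T2Space H]
    (φ : Multiplicative G →* H),
    (∀ (x : ℕ → G) (a : G), Tendsto x atTop (𝓝 a) →
      Tendsto (fun n => φ (Multiplicative.ofAdd (x n))) atTop (𝓝 (φ (Multiplicative.ofAdd a)))) →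
    Continuous (fun g : G => φ (Multiplicative.ofAdd g))

section core

variable {I : Type u} {H : Type v} [Group H] [TopologicalSpace H]
  (φ : Multiplicative (I → ℝ) →* H)

/-- all functions supported in `B` are mapped into `N` -/
def Null (N : Set H) (B : Set I) : Prop :=
  ∀ x : I → ℝ, (∀ i, i ∉ B → x i = 0) → φ (Multiplicative.ofAdd x) ∈ N

variable {φ}

omit [TopologicalSpace H] in
lemma Null.mono {N : Set H} {B C : Set I} (h : Null φ N C) (hBC : B ⊆ C) : Null φ N B :=
  fun x hx => h x fun i hi => hx i fun hi' => hi (hBC hi')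

variable (hseq : ∀ (x : ℕ → I → ℝ) (a : I → ℝ), Tendsto x atTop (𝓝 a) →
  Tendsto (fun n => φ (Multiplicative.ofAdd (x n))) atTop (𝓝 (φ (Multiplicative.ofAdd a))))
include hseq

lemma null_iUnion {N : Set H} (hN : IsClosed N) (h1 : (1 : H) ∈ N)
    (hmul : ∀ a ∈ N, ∀ b ∈ N, a * b ∈ N) {B : ℕ → Set I} (hB : ∀ n, Null φ N (B n)) :
    Null φ N (⋃ n, B n) := by
  classical
  intro x hx
  set D : ℕ → Set I := fun n => {i | ∃ k < n, i ∈ B k} with hD
  set y : ℕ → I → ℝ := fun n i => if i ∈ D n then x i else 0 with hy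
  have hlim : Tendsto y atTop (𝓝 x) := by
    rw [tendsto_pi_nhds]
    intro i
    by_cases hi : i ∈ ⋃ n, B n
    · obtain ⟨k, hk⟩ := mem_iUnion.1 hi
      refine tendsto_const_nhds.congr' ?_
      filter_upwards [eventually_gt_atTop k] with n hn
      have : i ∈ D n := ⟨k, hn, hk⟩
      simp only [hy, this, if_true]
    · refine tendsto_const_nhds.congr fun n => ?_
      simp only [hy, hx i hi, ite_self]
  have hyN : ∀ n, φ (Multiplicative.ofAdd (y n)) ∈ N := by
    intro n
    induction n with
    | zero =>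
      have : y 0 = 0 := by
        funext i
        simp [hy, hD]
      rw [this, ofAdd_zero, map_one]
      exact h1
    | succ n ih =>
      have hs : y (n + 1) = y n + fun i => if i ∈ B n ∧ i ∉ D n then x i else 0 := by
        funext i
        simp only [hy, Pi.add_apply]
        by_cases h1 : i ∈ D n
        · have h2 : i ∈ D (n + 1) := by
            obtain ⟨k, hk, hk'⟩ := h1
            exact ⟨k, by omega, hk'⟩
          simp [h1, h2]
        · by_cases h3 : i ∈ B n
          · have h2 : i ∈ D (n + 1) := ⟨n, by omega, h3⟩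
            simp [h1, h2, h3]
          · have h2 : i ∉ D (n + 1) := by
              rintro ⟨k, hk, hk'⟩
              rcases Nat.lt_succ_iff_lt_or_eq.1 hk with h | h
              · exact h1 ⟨k, h, hk'⟩
              · exact h3 (h ▸ hk')
            simp [h1, h2, h3]
      rw [hs, ofAdd_add, map_mul]
      refine hmul _ ih _ (hB n _ fun i hi => ?_)
      simp [hi]
  exact hN.mem_of_tendsto (hseq y x hlim) (Eventually.of_forall hyN)

lemma ccc {V : ℕ → Set H} (hV : ∀ n, V n ∈ 𝓝 (1 : H)) {T : Type*} [Uncountable T]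
    {B : T → Set I} (hd : ∀ s t, s ≠ t → Disjoint (B s) (B t))
    (hB : ∀ t, ¬ Null φ (⋂ n, V n) (B t)) : False := by
  have h1 : ∀ t, ∃ (x : I → ℝ) (n : ℕ), (∀ i, i ∉ B t → x i = 0) ∧
      φ (Multiplicative.ofAdd x) ∉ V n := by
    intro t
    have := hB t
    unfold Null at this
    push Not at this
    obtain ⟨x, hx, hx2⟩ := this
    rw [mem_iInter, not_forall] at hx2
    obtain ⟨n, hn⟩ := hx2
    exact ⟨x, n, hx, hn⟩
  choose x n hx hn using h1
  obtain ⟨m, hm⟩ : ∃ m, (n ⁻¹' {m}).Infinite := by
    by_contra hcon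
    push Not at hcon
    have h2 : (univ : Set T).Countable := by
      have : (univ : Set T) = ⋃ m, n ⁻¹' {m} := by
        ext t; simp
      rw [this]
      exact countable_iUnion fun m => (hcon m).countable
    exact not_countable (countable_univ_iff.1 h2)
  set g : ℕ → T := fun k => (hm.natEmbedding _ k : T) with hg
  have hginj : Function.Injective g := fun a b h => (hm.natEmbedding _).injective (Subtype.ext h)
  have hgm : ∀ k, n (g k) = m := fun k => (hm.natEmbedding _ k).2
  have hlim : Tendsto (fun k => x (g k)) atTop (𝓝 0) := by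
    rw [tendsto_pi_nhds]
    intro i
    refine tendsto_const_nhds.congr' ?_
    by_cases hi : ∃ k, i ∈ B (g k)
    · obtain ⟨k, hk⟩ := hi
      filter_upwards [eventually_gt_atTop k] with l hl
      have hne : g k ≠ g l := fun h => hl.ne (hginj h)
      have hil : i ∉ B (g l) := fun h => (Set.disjoint_left.1 (hd _ _ hne)) hk h
      rw [hx _ i hil]
      rfl
    · push Not at hi
      refine Eventually.of_forall fun l => ?_
      show (0 : ℝ) = x (g l) i
      rw [hx _ i (hi l)]
  have h3 := hseq _ _ hlim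
  rw [ofAdd_zero, map_one] at h3
  obtain ⟨k, hk⟩ := (h3.eventually (hV m)).exists
  have h4 := hn (g k)
  rw [hgm k] at h4
  exact h4 hk

/-- Ulam matrix argument: outside a countable set everything is null -/
lemma exists_countable (hI : #I = ℵ₁) {V : ℕ → Set H} (hV : ∀ n, V n ∈ 𝓝 (1 : H))
    (hN : IsClosed (⋂ n, V n))
    (hmul : ∀ a ∈ (⋂ n, V n), ∀ b ∈ (⋂ n, V n), a * b ∈ (⋂ n, V n)) :
    ∃ A : Set I, A.Countable ∧ Null φ (⋂ n, V n) Aᶜ := by
  classical
  set N : Set H := ⋂ n, V n with hNdef
  have h1N : (1 : H) ∈ N := mem_iInter.2 fun n => mem_of_mem_nhds (hV n)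
  set A : Set I := {i | ¬ Null φ N {i}} with hA
  have hAc : A.Countable := by
    by_contra hcon
    have : Uncountable A := by
      rw [← not_countable_iff]
      exact fun h => hcon (countable_coe_iff.1 h)
    exact ccc hseq hV (T := A) (B := fun t => {t.1})
      (fun s t hst => by
        rw [Set.disjoint_singleton]
        exact fun h => hst (Subtype.ext h)) (fun t => t.2)
  refine ⟨A, hAc, ?_⟩
  by_contra hbig
  -- a well order with countable initial segments
  obtain ⟨e⟩ : Nonempty (I ≃ (ℵ₁ : Cardinal.{u}).ord.ToType) := by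
    rw [← Cardinal.eq, mk_ord_toType]
    exact hI
  have hcount : ∀ i : I, {j | e j ≤ e i}.Countable := by
    intro i
    have h1 : (Iio (e i)).Countable := by
      rw [← le_aleph0_iff_set_countable]
      have h2 : #(Iio (e i)) < ℵ₁ := mk_Iio_toType_ord_lt (e i)
      exact Order.lt_succ_iff.1 (h2.trans_eq succ_aleph0.symm)
    have h2 : (Iic (e i)).Countable := by
      rw [← Iio_insert]
      exact h1.insert _
    exact h2.preimage e.injective
  have hinj : ∀ i : I, ∃ f : I → ℕ, Set.InjOn f {j | e j ≤ e i} := fun i =>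
    Set.countable_iff_exists_injOn.1 (hcount i)
  choose f hf using hinj
  -- the matrix
  set U : ℕ → I → Set I := fun n a => {b | b ∈ Aᶜ ∧ e a ≤ e b ∧ f b a = n} with hU
  have hdisj : ∀ n a a', a ≠ a' → Disjoint (U n a) (U n a') := by
    intro n a a' haa
    rw [Set.disjoint_left]
    rintro b ⟨_, h1, h2⟩ ⟨_, h3, h4⟩
    exact haa (hf b h1 h3 (h2.trans h4.symm))
  have hex : ∀ a, ∃ n, ¬ Null φ N (U n a) := by
    intro a
    by_contra hcon
    push Not at hcon
    apply hbig
    have hsmall : Null φ N {j | j ∈ Aᶜ ∧ e j ≤ e a} := by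
      have hc : {j | j ∈ Aᶜ ∧ e j ≤ e a}.Countable := (hcount a).mono fun j hj => hj.2
      rcases Set.eq_empty_or_nonempty {j | j ∈ Aᶜ ∧ e j ≤ e a} with h0 | h0
      · rw [h0]
        intro x hx
        have : x = 0 := funext fun i => hx i (by simp)
        rw [this, ofAdd_zero, map_one]
        exact h1N
      · obtain ⟨g, hg⟩ := hc.exists_eq_range h0
        have : {j | j ∈ Aᶜ ∧ e j ≤ e a} = ⋃ n, {g n} := by
          rw [hg]
          ext j
          simp [eq_comm]
        rw [this]
        refine null_iUnion hseq hN h1N hmul fun n => ?_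
        have h2 : g n ∈ {j | j ∈ Aᶜ ∧ e j ≤ e a} := by
          rw [hg]
          exact mem_range_self n
        have h3 := h2.1
        rw [hA, mem_compl_iff, mem_ofPred_eq, not_not] at h3
        exact h3
    have hcov : Aᶜ ⊆ ⋃ n : ℕ, (Nat.rec {j | j ∈ Aᶜ ∧ e j ≤ e a} (fun k _ => U k a) n : Set I) := by
      intro j hj
      rcases le_total (e j) (e a) with h | h
      · exact mem_iUnion.2 ⟨0, ⟨hj, h⟩⟩
      · exact mem_iUnion.2 ⟨f j a + 1, ⟨hj, h, rfl⟩⟩
    refine Null.mono (null_iUnion hseq hN h1N hmul fun n => ?_) hcov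
    cases n with
    | zero => exact hsmall
    | succ k => exact hcon k
  choose m hm using hex
  have hunc : Uncountable I := by
    rw [← Cardinal.aleph0_lt_mk_iff, hI]
    exact aleph0_lt_aleph_one
  obtain ⟨k, hk⟩ : ∃ k, ¬ (m ⁻¹' {k}).Countable := by
    by_contra hcon
    push Not at hcon
    have h2 : (univ : Set I).Countable := by
      have : (univ : Set I) = ⋃ k, m ⁻¹' {k} := by
        ext t; simp
      rw [this]
      exact countable_iUnion hcon
    exact not_countable (countable_univ_iff.1 h2)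
  have : Uncountable (m ⁻¹' {k} : Set I) := by
    rw [← not_countable_iff]
    exact fun h => hk (countable_coe_iff.1 h)
  refine ccc hseq hV (T := (m ⁻¹' {k} : Set I)) (B := fun t => U k t.1)
    (fun s t hst => hdisj k _ _ fun h => hst (Subtype.ext h)) (fun t => ?_)
  have h5 := hm t.1
  have h6 : m t.1 = k := t.2
  rw [h6] at h5
  exact h5

end core

/-- `ℝ ^ ω₁` is an s-group -/
theorem seqHomCont_fun (I : Type u) (hI : #I = ℵ₁) : SeqHomCont.{u, v} (I → ℝ) := by
  classical
  intro H _ _ _ _ φ hseq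
  -- it suffices to prove continuity at zero
  set ψ : (I → ℝ) → H := fun g => φ (Multiplicative.ofAdd g) with hψ
  have hadd : ∀ a b, ψ (a + b) = ψ a * ψ b := fun a b => by
    simp only [hψ, ofAdd_add, map_mul]
  have hzero : ψ 0 = 1 := by simp only [hψ, ofAdd_zero, map_one]
  suffices h0 : Tendsto ψ (𝓝 0) (𝓝 1) by
    rw [continuous_iff_continuousAt]
    intro a
    have h1 : Tendsto (fun g : I → ℝ => g - a) (𝓝 a) (𝓝 0) := by
      have : Continuous (fun g : I → ℝ => g - a) := continuous_id.sub continuous_const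
      simpa using this.tendsto a
    have h2 : Tendsto (fun g : I → ℝ => ψ (g - a) * ψ a) (𝓝 a) (𝓝 (1 * ψ a)) :=
      (h0.comp h1).mul tendsto_const_nhds
    rw [one_mul] at h2
    refine h2.congr fun g => ?_
    rw [← hadd, sub_add_cancel]
  intro W hW
  -- a chain of neighbourhoods
  obtain ⟨V, hV, hVc, hVW, hVV⟩ : ∃ V : ℕ → Set H, (∀ n, V n ∈ 𝓝 (1 : H)) ∧
      (∀ n, IsClosed (V n)) ∧ V 0 * V 0 ⊆ W ∧ ∀ n, V (n + 1) * V (n + 1) ⊆ V n := by
    have hex : ∀ U : {U : Set H // U ∈ 𝓝 (1 : H)}, ∃ U' : {U : Set H // U ∈ 𝓝 (1 : H)},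
        IsClosed U'.1 ∧ U'.1 * U'.1 ⊆ U.1 := by
      rintro ⟨U, hU⟩
      obtain ⟨V, hV, hVc, _, hVV⟩ := exists_closed_nhds_one_inv_eq_mul_subset hU
      exact ⟨⟨V, hV⟩, hVc, hVV⟩
    choose F hF1 hF2 using hex
    set S : ℕ → {U : Set H // U ∈ 𝓝 (1 : H)} := fun n => Nat.rec (F ⟨W, hW⟩) (fun _ U => F U) n
      with hS
    refine ⟨fun n => (S n).1, fun n => (S n).2, fun n => ?_, hF2 ⟨W, hW⟩, fun n => hF2 (S n)⟩
    cases n with
    | zero => exact hF1 _
    | succ n => exact hF1 _
  set N : Set H := ⋂ n, V n with hNdef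
  have hN : IsClosed N := isClosed_iInter hVc
  have hmul : ∀ a ∈ N, ∀ b ∈ N, a * b ∈ N := by
    intro a ha b hb
    rw [hNdef, mem_iInter] at ha hb ⊢
    exact fun n => hVV n (mul_mem_mul (ha (n + 1)) (hb (n + 1)))
  obtain ⟨A, hA, hAN⟩ := exists_countable hseq hI hV hN hmul
  -- the countable part
  have : Countable A := hA.to_subtype
  set ext : (A → ℝ) → I → ℝ := fun z i => if h : i ∈ A then z ⟨i, h⟩ else 0 with hext
  have hextc : Continuous ext := by
    refine continuous_pi fun i => ?_
    by_cases h : i ∈ A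
    · simp only [hext, h, dif_pos]
      exact continuous_apply _
    · simp only [hext, h, dif_neg, not_false_eq_true]
      exact continuous_const
  have hc : Continuous (ψ ∘ ext) := by
    apply SeqContinuous.continuous
    intro x p hx
    exact hseq _ _ ((hextc.tendsto p).comp hx)
  have hres : Continuous (fun x : I → ℝ => fun a : A => x a) :=
    continuous_pi fun a => continuous_apply _
  have hr : Continuous (fun x : I → ℝ => ψ (ext fun a : A => x a)) := hc.comp hres
  have h1 : Tendsto (fun x : I → ℝ => ψ (ext fun a : A => x a)) (𝓝 0) (𝓝 1) := by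
    have := hr.tendsto 0
    have h2 : ext (fun a : A => (0 : I → ℝ) a) = 0 := by
      funext i
      simp [hext]
    rwa [h2, hzero] at this
  have h1' : ∀ᶠ x : I → ℝ in 𝓝 0, ψ (ext fun a : A => x a) ∈ V 0 := h1 (hV 0)
  show ∀ᶠ x : I → ℝ in 𝓝 0, ψ x ∈ W
  filter_upwards [h1'] with x hx
  apply hVW
  have hdec : x = (ext fun a : A => x a) + fun i => if i ∈ A then 0 else x i := by
    funext i
    by_cases h : i ∈ A
    · simp [hext, h]
    · simp [hext, h]
  show ψ x ∈ V 0 * V 0
  rw [hdec, hadd]
  refine mul_mem_mul hx ?_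
  have h3 := hAN (fun i => if i ∈ A then 0 else x i) fun i hi => by
    rw [mem_compl_iff, not_not] at hi
    simp [hi]
  exact mem_iInter.1 h3 0

/-- transfer along an additive homeomorphism -/
theorem SeqHomCont.of_homeo {G : Type u} [AddCommGroup G] [TopologicalSpace G] {G' : Type u}
    [AddCommGroup G'] [TopologicalSpace G'] (e : G ≃ₜ G') (he : ∀ a b, e (a + b) = e a + e b)
    (h : SeqHomCont.{u, v} G') : SeqHomCont.{u, v} G := by
  intro H _ _ _ _ φ hseq
  let f : G ≃+ G' := { e.toEquiv with map_add' := he }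
  have hf : ∀ a, f a = e a := fun _ => rfl
  have hf' : ∀ a, f.symm a = e.symm a := fun _ => rfl
  set φ' : Multiplicative G' →* H := φ.comp (AddMonoidHom.toMultiplicative f.symm.toAddMonoidHom)
    with hφ'
  have h1 : ∀ a : G', φ' (Multiplicative.ofAdd a) = φ (Multiplicative.ofAdd (e.symm a)) :=
    fun _ => rfl
  have h2 := h H φ' (fun x a hx => by
    simp only [h1]
    exact hseq _ _ ((e.symm.continuous.tendsto a).comp hx))
  have h3 := h2.comp e.continuous
  refine h3.congr fun g => ?_
  show φ' (Multiplicative.ofAdd (e g)) = _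
  rw [h1, e.symm_apply_apply]

/-- uncountable powers of `ℝ` are not Frechet-Urysohn -/
theorem not_frechet (I : Type u) [Uncountable I] : ¬ FrechetUrysohnSpace (I → ℝ) := by
  classical
  intro h
  set E : Set (I → ℝ) := {x | (Function.support x).Finite} with hE
  have h1 : (fun _ => 1 : I → ℝ) ∈ closure E := by
    rw [mem_closure_iff]
    intro o ho h1
    obtain ⟨F, u, hu, hFu⟩ := isOpen_pi_iff.1 ho _ h1
    refine ⟨fun i => if i ∈ F then 1 else 0, hFu ?_, ?_⟩
    · intro i hi
      rw [Finset.mem_coe] at hi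
      simp only [hi, if_true]
      exact (hu i hi).2
    · refine F.finite_toSet.subset fun i hi => ?_
      by_contra hi'
      rw [Finset.mem_coe] at hi'
      simp [hi'] at hi
  obtain ⟨x, hx, hlim⟩ := h.closure_subset_seqClosure E h1
  have h2 : (⋃ n, Function.support (x n)).Countable :=
    countable_iUnion fun n => (hx n).countable
  obtain ⟨i, hi⟩ : ∃ i, i ∉ ⋃ n, Function.support (x n) := by
    by_contra hcon
    push Not at hcon
    have : (univ : Set I).Countable := h2.mono fun i _ => hcon i
    exact not_countable (countable_univ_iff.1 this)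
  have h3 := (continuous_apply i).tendsto (fun _ => 1 : I → ℝ) |>.comp hlim
  have h4 : (fun y : I → ℝ => y i) ∘ x = fun _ => 0 := by
    funext n
    have : i ∉ Function.support (x n) := fun h' => hi (mem_iUnion.2 ⟨n, h'⟩)
    simpa using this
  rw [h4] at h3
  exact zero_ne_one (tendsto_nhds_unique tendsto_const_nhds h3)

theorem not_frechet_of_homeo {G G' : Type u} [TopologicalSpace G] [TopologicalSpace G']
    (e : G ≃ₜ G') (h : ¬ FrechetUrysohnSpace G') : ¬ FrechetUrysohnSpace G := by
  intro hG
  apply h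
  refine ⟨fun s a ha => ?_⟩
  have h1 : e.symm a ∈ closure (e ⁻¹' s) := by
    rw [← e.preimage_closure]
    simpa using ha
  obtain ⟨x, hx, hlim⟩ := hG.closure_subset_seqClosure _ h1
  refine ⟨fun n => e (x n), hx, ?_⟩
  have := (e.continuous.tendsto _).comp hlim
  rw [e.apply_symm_apply] at this
  exact this

end Pool.Agent.TH571.SG
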